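import Mathlib

/-!
# The mod 2 van Kampen cocycle of a planar graph

`HT G` says that the van Kampen obstruction of `G` vanishes.  Plane graphs satisfy it
(file `Drawing`), it excludes `K5` and `K33` minors, and it allows to add edges.
-/

namespace Pool.Agent.Shared.Planar

open Relation

variable {V : Type*}

/-- A mod 2 cocycle witnessing the vanishing of the van Kampen obstruction. -/
structure Coc (G : SimpleGraph V) where
  t : V → V → ZMod 2
  x : V → V → V → ZMod 2
  anti : ∀ a b, a ≠ b → t a b + t b a = 1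
  symm : ∀ a b v, x a b v = x b a v
  eqn : ∀ a b c d, G.Adj a b → G.Adj c d → a ≠ c → a ≠ d → b ≠ c → b ≠ d →
    x a b c + x a b d + x c d a + x c d b = t a c + t a d + t b c + t b d

def HT (G : SimpleGraph V) : Prop := Nonempty (Coc G)

theorem two0 : (2 : ZMod 2) = 0 := rfl

theorem HT.comap {W : Type*} {G : SimpleGraph V} {H : SimpleGraph W} (h : HT G) (f : W → V)
    (hf : Function.Injective f) (hA : ∀ a b, H.Adj a b → G.Adj (f a) (f b)) : HT H := by
  obtain ⟨c⟩ := h
  exact ⟨⟨fun a b => c.t (f a) (f b), fun a b v => c.x (f a) (f b) (f v),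
    fun a b h => c.anti _ _ (hf.ne h), fun a b v => c.symm _ _ _,
    fun a b p q h1 h2 e1 e2 e3 e4 =>
      c.eqn _ _ _ _ (hA _ _ h1) (hA _ _ h2) (hf.ne e1) (hf.ne e2) (hf.ne e3) (hf.ne e4)⟩⟩

theorem HT.mono {G H : SimpleGraph V} (h : HT G) (hle : H ≤ G) : HT H :=
  h.comap id Function.injective_id fun _ _ e => hle e

/-- Reachability inside a vertex set. -/
def R (G : SimpleGraph V) (S : Set V) (a b : V) : Prop :=
  ReflTransGen (fun p q => p ∈ S ∧ q ∈ S ∧ G.Adj p q) a b

theorem R.refl {G : SimpleGraph V} {S : Set V} {a : V} : R G S a a := ReflTransGen.refl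

theorem R.trans {G : SimpleGraph V} {S : Set V} {a b c : V} (h : R G S a b) (k : R G S b c) :
    R G S a c := ReflTransGen.trans h k

theorem R.single {G : SimpleGraph V} {S : Set V} {a b : V} (ha : a ∈ S) (hb : b ∈ S)
    (h : G.Adj a b) : R G S a b := ReflTransGen.single ⟨ha, hb, h⟩

theorem R.tail {G : SimpleGraph V} {S : Set V} {a b c : V} (h : R G S a b) (hb : b ∈ S)
    (hc : c ∈ S) (k : G.Adj b c) : R G S a c := h.trans (R.single hb hc k)

theorem R.symm {G : SimpleGraph V} {S : Set V} {a b : V} (h : R G S a b) : R G S b a := by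
  induction h with
  | refl => exact R.refl
  | tail _ k ih => exact (R.single k.2.1 k.1 k.2.2.symm).trans ih

theorem R.mono {G H : SimpleGraph V} {S T : Set V} {a b : V} (h : R G S a b) (hS : S ⊆ T)
    (hG : G ≤ H) : R H T a b := by
  induction h with
  | refl => exact R.refl
  | tail _ k ih => exact ih.tail (hS k.1) (hS k.2.1) (hG k.2.2)

theorem R.mem {G : SimpleGraph V} {S : Set V} {a b : V} (h : R G S a b) (ha : a ∈ S) :
    b ∈ S := by
  induction h with
  | refl => exact ha
  | tail _ k _ => exact k.2.1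

/-- A property that propagates along edges inside `S` propagates along `R`. -/
theorem R.ind {G : SimpleGraph V} {S : Set V} {a b : V} (h : R G S a b) (P : V → Prop)
    (ha : P a) (hs : ∀ p q, p ∈ S → q ∈ S → G.Adj p q → P p → P q) : P b := by
  induction h with
  | refl => exact ha
  | tail _ k ih => exact hs _ _ k.1 k.2.1 k.2.2 ih

/-- The path can be taken inside the set of points reachable from its start. -/
theorem R.restrict {G : SimpleGraph V} {S T : Set V} {a b : V} (h : R G S a b)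
    (hT : ∀ p, R G S a p → p ∈ S → p ∈ T) : R G T a b := by
  induction h with
  | refl => exact R.refl
  | tail h k ih => exact ih.tail (hT _ h k.1) (hT _ (R.tail h k.1 k.2.1 k.2.2) k.2.1) k.2.2

theorem R.map {W : Type*} {G : SimpleGraph V} {H : SimpleGraph W} {S : Set V} {T : Set W}
    {a b : V} (h : R G S a b) (f : V → W) (hS : ∀ p ∈ S, f p ∈ T)
    (hA : ∀ p q, G.Adj p q → H.Adj (f p) (f q)) : R H T (f a) (f b) := by
  induction h with
  | refl => exact R.refl
  | tail _ k ih => exact ih.tail (hS _ k.1) (hS _ k.2.1) (hA _ _ k.2.2)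

/-- Connected (possibly empty) vertex sets. -/
def Cn (G : SimpleGraph V) (S : Set V) : Prop := ∀ a ∈ S, ∀ b ∈ S, R G S a b

theorem Cn.of_root {G : SimpleGraph V} {S : Set V} (r : V) (h : ∀ a ∈ S, R G S r a) : Cn G S :=
  fun a ha b hb => (h a ha).symm.trans (h b hb)

namespace Coc

variable {G : SimpleGraph V} (c : Coc G)

/-- Walks inside `S` together with the sum of the cocycle along them. -/
inductive Wk (S : Set V) (a : V) : V → (V → ZMod 2) → Prop
  | nil : a ∈ S → Wk S a a 0
  | cons {b d : V} {f : V → ZMod 2} : Wk S a b f → G.Adj b d → d ∈ S → Wk S a d (f + c.x b d)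

variable {c}

theorem Wk.ends {S : Set V} {a b : V} {f : V → ZMod 2} (h : c.Wk S a b f) : a ∈ S ∧ b ∈ S := by
  induction h with
  | nil h => exact ⟨h, h⟩
  | cons _ _ h ih => exact ⟨ih.1, h⟩

theorem exists_wk {S : Set V} {a b : V} (h : R G S a b) (ha : a ∈ S) : ∃ f, c.Wk S a b f := by
  induction h with
  | refl => exact ⟨_, Wk.nil ha⟩
  | tail _ k ih => obtain ⟨f, hf⟩ := ih; exact ⟨_, hf.cons k.2.2 k.2.1⟩

theorem Wk.edge {S : Set V} {a b : V} {f : V → ZMod 2} (h : c.Wk S a b f) {p q : V}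
    (hpq : G.Adj p q) (hp : p ∉ S) (hq : q ∉ S) :
    f p + f q + c.x p q a + c.x p q b = c.t a p + c.t a q + c.t b p + c.t b q := by
  induction h with
  | nil h =>
    simp only [Pi.zero_apply]
    linear_combination (c.x p q a - c.t a p - c.t a q) * two0
  | @cons b d f h k hd ih =>
    have hb := h.ends.2
    have := c.eqn b d p q k hpq (fun e => hp (e ▸ hb)) (fun e => hq (e ▸ hb))
      (fun e => hp (e ▸ hd)) (fun e => hq (e ▸ hd))
    simp only [Pi.add_apply]
    linear_combination ih + this + (c.t b p + c.t b q - c.x p q b) * two0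

theorem Wk.walk {S T : Set V} {a b : V} {f : V → ZMod 2} (h : c.Wk S a b f) {p q : V}
    {g : V → ZMod 2} (k : c.Wk T p q g) (hd : ∀ v, v ∈ S → v ∈ T → False) :
    f p + f q + g a + g b = c.t a p + c.t a q + c.t b p + c.t b q := by
  induction k with
  | nil h =>
    simp only [Pi.zero_apply]
    linear_combination (f p - c.t a p - c.t b p) * two0
  | @cons q d g k e hq ih =>
    have := h.edge e (fun m => hd _ m k.ends.2) (fun m => hd _ m hq)
    simp only [Pi.add_apply]
    linear_combination ih + this + (c.t a q + c.t b q - f q) * two0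

end Coc

/-- Some vertex of `S` is adjacent to some vertex of `T`. -/
def Tch (G : SimpleGraph V) (S T : Set V) : Prop := ∃ a ∈ S, ∃ b ∈ T, G.Adj a b

theorem wk_between {G : SimpleGraph V} (c : Coc G) {S T : Set V} (hS : Cn G S) (hT : Cn G T)
    (h : Tch G S T) {a b : V} (ha : a ∈ S) (hb : b ∈ T) : ∃ f, c.Wk (S ∪ T) a b f := by
  obtain ⟨p, hp, q, hq, e⟩ := h
  exact Coc.exists_wk ((((hS a ha p hp).mono Set.subset_union_left le_rfl).tail (Or.inl hp)
    (Or.inr hq) e).trans ((hT q hq b hb).mono Set.subset_union_right le_rfl)) (Or.inl ha)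

theorem HT.no_K33 {G : SimpleGraph V} (h : HT G) (A B : Fin 3 → Set V)
    (cA : ∀ i, Cn G (A i)) (cB : ∀ i, Cn G (B i))
    (dA : ∀ i j, i ≠ j → ∀ v, v ∈ A i → v ∈ A j → False)
    (dB : ∀ i j, i ≠ j → ∀ v, v ∈ B i → v ∈ B j → False)
    (dAB : ∀ i j v, v ∈ A i → v ∈ B j → False)
    (e : ∀ i j, Tch G (A i) (B j)) : False := by
  obtain ⟨c⟩ := h
  have ha : ∀ i, ∃ a, a ∈ A i := fun i => let ⟨a, h, _⟩ := e i 0; ⟨a, h⟩
  have hb : ∀ j, ∃ a, a ∈ B j := fun j => let ⟨_, _, a, h, _⟩ := e 0 j; ⟨a, h⟩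
  choose a ha using ha
  choose b hb using hb
  have hw := fun i j => wk_between c (cA i) (cB j) (e i j) (ha i) (hb j)
  choose f hf using hw
  have q : ∀ i j k l, i ≠ k → j ≠ l → f i j (a k) + f i j (b l) + f k l (a i) + f k l (b j) =
      c.t (a i) (a k) + c.t (a i) (b l) + c.t (b j) (a k) + c.t (b j) (b l) := by
    intro i j k l h1 h2
    refine (hf i j).walk (hf k l) ?_
    rintro v (m | m) (n | n)
    exacts [dA _ _ h1 v m n, dAB _ _ v m n, dAB _ _ v n m, dB _ _ h2 v m n]
  have s : ∀ i j, c.t (a i) (b j) + c.t (b j) (a i) = 1 :=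
    fun i j => c.anti _ _ fun e => dAB i j _ (ha i) (e ▸ hb j)
  have r : ∀ i j, i ≠ j → c.t (b i) (b j) + c.t (b j) (b i) = 1 :=
    fun i j h => c.anti _ _ fun e => dB i j h _ (hb i) (e ▸ hb j)
  have : (1 : ZMod 2) = 0 := by
    linear_combination (norm := (ring_nf; reduce_mod_char))
      q 0 0 1 1 (by decide) (by decide) + q 0 0 1 2 (by decide) (by decide)
      + q 0 1 1 0 (by decide) (by decide) + q 0 1 1 2 (by decide) (by decide)
      + q 0 2 1 0 (by decide) (by decide) + q 0 2 1 1 (by decide) (by decide)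
      + q 0 0 2 1 (by decide) (by decide) + q 0 0 2 2 (by decide) (by decide)
      + q 0 1 2 0 (by decide) (by decide) + q 0 1 2 2 (by decide) (by decide)
      + q 0 2 2 0 (by decide) (by decide) + q 0 2 2 1 (by decide) (by decide)
      + q 1 0 2 1 (by decide) (by decide) + q 1 0 2 2 (by decide) (by decide)
      + q 1 1 2 0 (by decide) (by decide) + q 1 1 2 2 (by decide) (by decide)
      + q 1 2 2 0 (by decide) (by decide) + q 1 2 2 1 (by decide) (by decide)
      + r 0 1 (by decide) + r 0 2 (by decide) + r 1 2 (by decide)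
      + s 1 0 + s 1 1 + s 1 2 + s 1 0 + s 1 1 + s 1 2
  exact absurd this (by decide)

theorem HT.no_K5 {G : SimpleGraph V} (h : HT G) (A : Fin 5 → Set V)
    (cA : ∀ i, Cn G (A i))
    (dA : ∀ i j, i ≠ j → ∀ v, v ∈ A i → v ∈ A j → False)
    (e : ∀ i j, i < j → Tch G (A i) (A j)) : False := by
  obtain ⟨c⟩ := h
  have ha : ∀ i, ∃ a, a ∈ A i := fun i => by
    by_cases h : i = 4
    · obtain ⟨_, _, a, k, _⟩ := e 0 4 (by decide); exact ⟨a, h ▸ k⟩
    · obtain ⟨a, k, _⟩ := e i 4 (by omega); exact ⟨a, k⟩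
  choose a ha using ha
  have hw : ∀ i j, ∃ f, i < j → c.Wk (A i ∪ A j) (a i) (a j) f := fun i j => by
    by_cases h : i < j
    · obtain ⟨f, hf⟩ := wk_between c (cA i) (cA j) (e i j h) (ha i) (ha j)
      exact ⟨f, fun _ => hf⟩
    · exact ⟨0, fun k => absurd k h⟩
  choose f hf using hw
  have q : ∀ i j k l, i < j → k < l → i ≠ k → i ≠ l → j ≠ k → j ≠ l →
      f i j (a k) + f i j (a l) + f k l (a i) + f k l (a j) =
      c.t (a i) (a k) + c.t (a i) (a l) + c.t (a j) (a k) + c.t (a j) (a l) := by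
    intro i j k l h1 h2 h3 h4 h5 h6
    refine (hf i j h1).walk (hf k l h2) ?_
    rintro v (m | m) (n | n)
    exacts [dA _ _ h3 v m n, dA _ _ h4 v m n, dA _ _ h5 v m n, dA _ _ h6 v m n]
  have r : ∀ i j, i ≠ j → c.t (a i) (a j) + c.t (a j) (a i) = 1 :=
    fun i j h => c.anti _ _ fun e => dA i j h _ (ha i) (e ▸ ha j)
  have q' := fun i j k l (h : i < j ∧ k < l ∧ i ≠ k ∧ i ≠ l ∧ j ≠ k ∧ j ≠ l) =>
    q i j k l h.1 h.2.1 h.2.2.1 h.2.2.2.1 h.2.2.2.2.1 h.2.2.2.2.2
  have : (1 : ZMod 2) = 0 := by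
    linear_combination (norm := (ring_nf; reduce_mod_char))
      q' 0 1 2 3 (by decide) + q' 0 1 2 4 (by decide) + q' 0 1 3 4 (by decide)
      + q' 0 2 1 3 (by decide) + q' 0 2 1 4 (by decide) + q' 0 2 3 4 (by decide)
      + q' 0 3 1 2 (by decide) + q' 0 3 1 4 (by decide) + q' 0 3 2 4 (by decide)
      + q' 0 4 1 2 (by decide) + q' 0 4 1 3 (by decide) + q' 0 4 2 3 (by decide)
      + q' 1 2 3 4 (by decide) + q' 1 3 2 4 (by decide) + q' 1 4 2 3 (by decide)
      + r 2 4 (by decide) + r 3 4 (by decide) + r 2 3 (by decide)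
  exact absurd this (by decide)

end Pool.Agent.Shared.Planar
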