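import Mathlib
import Pool.Agent.Shared.Planar.Cocycle

/-!
# Graphs drawn in the plane with arbitrary arcs have vanishing van Kampen obstruction
-/

namespace Pool.Agent.Shared.Planar

open Complex unitInterval

theorem lift_one (f : C(I, ℂ)) (hf : ∀ s, f s ≠ 0) : ∃ L : C(I, ℂ), ∀ s, exp (L s) = f s := by
  let g : C(I, {z : ℂ // z ≠ 0}) := ⟨fun s => ⟨f s, hf s⟩, by fun_prop⟩
  obtain ⟨L, hL, _⟩ := isCoveringMap_exp.exists_path_lifts g (log (f 0))
    (Subtype.ext (exp_log (hf 0)).symm)
  exact ⟨L, fun s => congrArg Subtype.val (congrFun hL s)⟩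

theorem lift_two (f : C(I × I, ℂ)) (hf : ∀ s, f s ≠ 0) :
    ∃ L : C(I × I, ℂ), ∀ s, exp (L s) = f s := by
  let g : C(I × I, {z : ℂ // z ≠ 0}) := ⟨fun s => ⟨f s, hf s⟩, by fun_prop⟩
  obtain ⟨L0, hL0⟩ := lift_one ⟨fun s => f (0, s), by fun_prop⟩ fun s => hf _
  have h0 : ∀ a, g (0, a) = (fun z : ℂ => (⟨_, z.exp_ne_zero⟩ : {z : ℂ // z ≠ 0})) (L0 a) :=
    fun a => Subtype.ext (hL0 a).symm
  exact ⟨isCoveringMap_exp.liftHomotopy g L0 h0, fun s =>
    congrArg Subtype.val (congrFun (isCoveringMap_exp.liftHomotopy_lifts g L0 h0) s)⟩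

theorem lift_uniq (L M : I → ℂ) (hL : Continuous L) (hM : Continuous M) (k : ℂ)
    (h : ∀ s, exp (L s) = k * exp (M s)) : L 1 - L 0 = M 1 - M 0 := by
  have := isCoveringMap_exp.const_of_comp (g := fun s => L s - M s) (hL.sub hM) (fun a b => by
    apply Subtype.ext
    simp only [exp_sub, h, mul_div_assoc, div_self (exp_ne_zero _)]) 1 0
  linear_combination this

theorem exists_n (f : C(I, ℂ)) (hf : ∀ s, f s ≠ 0) : ∃ n : ℤ, ∀ (M : I → ℂ) (k : ℂ),
    Continuous M → (∀ s, exp (M s) = k * f s) →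
      M 1 - M 0 = log (f 1) - log (f 0) + n * (2 * Real.pi * Complex.I) := by
  obtain ⟨L, hL⟩ := lift_one f hf
  have : exp (L 1 - L 0) = exp (log (f 1) - log (f 0)) := by
    rw [exp_sub, exp_sub, hL, hL, exp_log (hf 1), exp_log (hf 0)]
  obtain ⟨n, hn⟩ := exp_eq_exp_iff_exists_int.1 this
  refine ⟨n, fun M k hM h => ?_⟩
  rw [← hn]
  exact lift_uniq M L hM L.continuous k fun s => by rw [h, hL]

theorem exists_m (z : ℂ) (hz : z ≠ 0) :
    ∃ m : ℤ, log z = log (-z) + Real.pi * Complex.I + m * (2 * Real.pi * Complex.I) := by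
  apply exp_eq_exp_iff_exists_int.1
  rw [exp_add, exp_log hz, exp_log (neg_ne_zero.2 hz), exp_pi_mul_I]
  ring

theorem ht_of_drawing {V : Type*} (G : SimpleGraph V) (p : V → ℝ × ℝ)
    (hp : Function.Injective p) (γ : V → V → C(unitInterval, ℝ × ℝ))
    (h1 : ∀ u v, G.Adj u v → γ u v 0 = p u ∧ γ u v 1 = p v ∧
      ∀ (w : V) (t : unitInterval), γ u v t = p w → t = 0 ∨ t = 1)
    (h2 : ∀ u v x y, G.Adj u v → G.Adj x y → s(u, v) ≠ s(x, y) →
      ∀ (a b : unitInterval), γ u v a = γ x y b → (a = 0 ∨ a = 1) ∧ (b = 0 ∨ b = 1)) :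
    HT G := by
  classical
  let e : ℝ × ℝ → ℂ := fun z => equivRealProdCLM.symm z
  have he : Function.Injective e := equivRealProdCLM.symm.injective
  have hec : Continuous e := equivRealProdCLM.symm.continuous
  let P : V → ℂ := fun a => e (p a)
  have hP : ∀ a b, a ≠ b → P a - P b ≠ 0 := fun a b h k => h (hp (he (sub_eq_zero.1 k)))
  have pi2 : (2 * Real.pi * Complex.I : ℂ) ≠ 0 := by simp [Real.pi_ne_zero]
  have hm : ∀ a b, ∃ m : ℤ, a ≠ b → log (P a - P b) =
      log (P b - P a) + Real.pi * Complex.I + m * (2 * Real.pi * Complex.I) := by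
    intro a b
    by_cases h : a = b
    · exact ⟨0, fun k => absurd h k⟩
    · obtain ⟨m, hm⟩ := exists_m _ (hP a b h)
      exact ⟨m, fun _ => by rwa [neg_sub] at hm⟩
  choose m hm using hm
  have hn : ∀ a b v, ∃ n : ℤ, G.Adj a b → a ≠ v → b ≠ v → ∀ (M : I → ℂ) (k : ℂ),
      Continuous M → (∀ s, exp (M s) = k * (e (γ a b s) - P v)) →
      M 1 - M 0 = log (P b - P v) - log (P a - P v) + n * (2 * Real.pi * Complex.I) := by
    intro a b v
    by_cases h : G.Adj a b ∧ a ≠ v ∧ b ≠ v
    · obtain ⟨g0, g1, g2⟩ := h1 a b h.1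
      obtain ⟨n, hn⟩ := exists_n ⟨fun s => e (γ a b s) - P v, by fun_prop⟩ (fun s k => by
        have k' := he (sub_eq_zero.1 k)
        rcases g2 v s k' with rfl | rfl
        · exact h.2.1 (hp (g0.symm.trans k'))
        · exact h.2.2 (hp (g1.symm.trans k')))
      refine ⟨n, fun _ _ _ M k hM hk => ?_⟩
      have := hn M k hM hk
      simpa only [ContinuousMap.coe_mk, g0, g1] using this
    · exact ⟨0, fun a1 a2 a3 => absurd ⟨a1, a2, a3⟩ h⟩
  choose n hn using hn
  have key : ∀ a b c d, G.Adj a b → G.Adj c d → a ≠ c → a ≠ d → b ≠ c → b ≠ d →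
      (n a b c : ZMod 2) + n a b d + n c d a + n c d b =
        (m a c : ZMod 2) + m a d + m b c + m b d := by
    intro a b c d hab hcd ac ad bc bd
    obtain ⟨g0, g1, _⟩ := h1 a b hab
    obtain ⟨k0, k1, _⟩ := h1 c d hcd
    obtain ⟨L, hL⟩ := lift_two ⟨fun s => e (γ a b s.1) - e (γ c d s.2), by fun_prop⟩
      (fun s k => by
        have k' := he (sub_eq_zero.1 k)
        have ne : s(a, b) ≠ s(c, d) := by simp [ac, ad]
        obtain ⟨u, w⟩ := h2 a b c d hab hcd ne _ _ k'
        rcases u with u | u <;> rcases w with w | w <;> rw [u, w] at k'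
        · exact ac (hp (g0.symm.trans (k'.trans k0)))
        · exact ad (hp (g0.symm.trans (k'.trans k1)))
        · exact bc (hp (g1.symm.trans (k'.trans k0)))
        · exact bd (hp (g1.symm.trans (k'.trans k1))))
    simp only [ContinuousMap.coe_mk] at hL
    have e1 := hn a b c hab ac bc (fun s => L (s, 0)) 1 (by fun_prop)
      (fun s => by rw [hL, k0, one_mul])
    have e2 := hn a b d hab ad bd (fun s => L (s, 1)) 1 (by fun_prop)
      (fun s => by rw [hL, k1, one_mul])
    have e3 := hn c d a hcd ac.symm ad.symm (fun s => L (0, s)) (-1) (by fun_prop)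
      (fun s => by rw [hL, g0]; ring)
    have e4 := hn c d b hcd bc.symm bd.symm (fun s => L (1, s)) (-1) (by fun_prop)
      (fun s => by rw [hL, g1]; ring)
    have z : ((m b c - m a c - m b d + m a d + n a b c + n c d b - n c d a - n a b d : ℤ) : ℂ)
        * (2 * Real.pi * Complex.I) = 0 := by
      push_cast
      linear_combination -e1 - e4 + e2 + e3 - hm b c bc + hm a c ac + hm b d bd - hm a d ad
    have z1 : m b c - m a c - m b d + m a d + n a b c + n c d b - n c d a - n a b d = 0 := by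
      exact_mod_cast (mul_eq_zero.1 z).resolve_right pi2
    have z2 := congrArg (Int.cast : ℤ → ZMod 2) z1
    push_cast at z2
    linear_combination (norm := (ring_nf; reduce_mod_char)) z2
  letI : LinearOrder V := linearOrderOfSTO WellOrderingRel
  refine ⟨⟨fun a b => m a b, fun a b v => n (min a b) (max a b) v, fun a b h => ?_,
    fun a b v => by rw [min_comm, max_comm], fun a b c d hab hcd ac ad bc bd => ?_⟩⟩
  · have z : ((m a b + m b a + 1 : ℤ) : ℂ) * (2 * Real.pi * Complex.I) = 0 := by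
      push_cast
      linear_combination -hm a b h - hm b a h.symm
    have z1 : m a b + m b a + 1 = 0 := by exact_mod_cast (mul_eq_zero.1 z).resolve_right pi2
    have z2 := congrArg (Int.cast : ℤ → ZMod 2) z1
    push_cast at z2
    linear_combination (norm := (ring_nf; reduce_mod_char)) z2
  · rcases le_total a b with h | h <;> rcases le_total c d with k | k <;>
      simp only [min_eq_left h, max_eq_right h, min_eq_left k, max_eq_right k,
        min_eq_right h, max_eq_left h, min_eq_right k, max_eq_left k]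
    · linear_combination key a b c d hab hcd ac ad bc bd
    · linear_combination key a b d c hab hcd.symm ad ac bd bc
    · linear_combination key b a c d hab.symm hcd bc bd ac ad
    · linear_combination key b a d c hab.symm hcd.symm bd bc ad ac

end Pool.Agent.Shared.Planar
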