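import Mathlib
import Pool.Agent.Shared.Planar.Cocycle

/-!
# Adding edges and vertices to graphs with vanishing van Kampen obstruction
-/

namespace Pool.Agent.Shared.Planar

open SimpleGraph

variable {V : Type*} {G : SimpleGraph V}

/-- `s` can serve as the cocycle of a new edge `pq`, tested on the edges inside `A`. -/
def Coc.Pot (c : Coc G) (p q : V) (s : V → ZMod 2) (A : Set V) : Prop :=
  ∀ a b, G.Adj a b → a ∈ A → b ∈ A →
    c.x a b p + c.x a b q + s a + s b = c.t a p + c.t a q + c.t b p + c.t b q

theorem Coc.add_edge (c : Coc G) (p q : V) (s : V → ZMod 2)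
    (hs : c.Pot p q s {v | v ≠ p ∧ v ≠ q}) : HT (G ⊔ edge p q) := by
  classical
  let E : V → V → Prop := fun a b => (a = p ∧ b = q) ∨ (a = q ∧ b = p)
  have hE : ∀ a b, (G ⊔ edge p q).Adj a b → ¬ E a b → G.Adj a b := by
    intro a b h k
    rcases h with h | h
    · exact h
    · exact absurd ((edge_adj _ _ _ _).1 h).1 k
  refine ⟨⟨c.t, fun a b v => if E a b then s v else c.x a b v, c.anti, fun a b v => ?_,
    fun a b u v h1 h2 e1 e2 e3 e4 => ?_⟩⟩
  · have : E a b ↔ E b a := by simp only [E]; tauto
    simp only [this, c.symm a b v]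
  · by_cases k1 : E a b <;> by_cases k2 : E u v <;> simp only [k1, k2, if_true, if_false]
    · exfalso
      rcases k1 with ⟨rfl, rfl⟩ | ⟨rfl, rfl⟩ <;> rcases k2 with ⟨rfl, rfl⟩ | ⟨rfl, rfl⟩ <;> simp_all
    · have a1 := c.anti _ _ e1
      have a2 := c.anti _ _ e2
      have a3 := c.anti _ _ e3
      have a4 := c.anti _ _ e4
      rcases k1 with ⟨rfl, rfl⟩ | ⟨rfl, rfl⟩
      · have := hs u v (hE _ _ h2 k2) ⟨e1.symm, e3.symm⟩ ⟨e2.symm, e4.symm⟩
        linear_combination (norm := (ring_nf; reduce_mod_char)) this + a1 + a2 + a3 + a4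
      · have := hs u v (hE _ _ h2 k2) ⟨e3.symm, e1.symm⟩ ⟨e4.symm, e2.symm⟩
        linear_combination (norm := (ring_nf; reduce_mod_char)) this + a1 + a2 + a3 + a4
    · rcases k2 with ⟨rfl, rfl⟩ | ⟨rfl, rfl⟩
      · linear_combination hs a b (hE _ _ h1 k1) ⟨e1, e2⟩ ⟨e3, e4⟩
      · linear_combination hs a b (hE _ _ h1 k1) ⟨e2, e1⟩ ⟨e4, e3⟩
    · exact c.eqn a b u v (hE _ _ h1 k1) (hE _ _ h2 k2) e1 e2 e3 e4

theorem Coc.pot_of_R (c : Coc G) {S A : Set V} {p q : V} (h : R G S p q) (hp : p ∈ S)
    (hd : ∀ v, v ∈ S → v ∈ A → False) : ∃ s, c.Pot p q s A := by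
  obtain ⟨g, hg⟩ := Coc.exists_wk (c := c) h hp
  have hq := hg.ends.2
  refine ⟨g, fun a b e ha hb => ?_⟩
  have := hg.edge e (fun m => hd _ m ha) (fun m => hd _ m hb)
  have a1 := c.anti p a fun k => hd _ hp (k ▸ ha)
  have a2 := c.anti p b fun k => hd _ hp (k ▸ hb)
  have a3 := c.anti q a fun k => hd _ hq (k ▸ ha)
  have a4 := c.anti q b fun k => hd _ hq (k ▸ hb)
  linear_combination (norm := (ring_nf; reduce_mod_char)) this + a1 + a2 + a3 + a4

/-- Gluing lemma: an edge `pq` may be added when the rest of the graph is the union of two parts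
with connected intersection, each of which is avoided by some path from `p` to `q`. -/
theorem HT.glue (h : HT G) (p q : V) (A B S T : Set V)
    (hcov : ∀ a b, G.Adj a b → a ≠ p → a ≠ q → b ≠ p → b ≠ q →
      (a ∈ A ∧ b ∈ A) ∨ (a ∈ B ∧ b ∈ B))
    (hc : Cn G (A ∩ B)) (hS : R G S p q) (hpS : p ∈ S) (hSA : ∀ v, v ∈ S → v ∈ A → False)
    (hT : R G T p q) (hpT : p ∈ T) (hTB : ∀ v, v ∈ T → v ∈ B → False) :
    HT (G ⊔ edge p q) := by
  classical
  obtain ⟨c⟩ := h
  obtain ⟨f, hf⟩ := c.pot_of_R hS hpS hSA
  obtain ⟨g, hg⟩ := c.pot_of_R hT hpT hTB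
  have hk : ∃ k : ZMod 2, ∀ v ∈ A ∩ B, f v = g v + k := by
    rcases (A ∩ B).eq_empty_or_nonempty with e | ⟨r, hr⟩
    · exact ⟨0, fun v hv => absurd (e ▸ hv) (Set.notMem_empty v)⟩
    · refine ⟨f r - g r, fun v hv => (hc r hr v hv).ind (fun v => f v = g v + (f r - g r))
        (by ring) fun a b ha hb e ih => ?_⟩
      have h1 := hf a b e ha.1 hb.1
      have h2 := hg a b e ha.2 hb.2
      linear_combination (norm := (ring_nf; reduce_mod_char)) h1 + h2 + ih
  obtain ⟨k, hk⟩ := hk
  refine c.add_edge p q (fun v => if v ∈ A then f v else g v + k) fun a b e ha hb => ?_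
  rcases hcov a b e ha.1 ha.2 hb.1 hb.2 with ⟨h1, h2⟩ | ⟨h1, h2⟩
  · simp only [h1, h2, if_true]
    exact hf a b e h1 h2
  · have : ∀ v ∈ B, (if v ∈ A then f v else g v + k) = g v + k := fun v hv => by
      split_ifs with m
      · exact hk v ⟨m, hv⟩
      · rfl
    simp only [this a h1, this b h2]
    linear_combination (norm := (ring_nf; reduce_mod_char)) hg a b e h1 h2

/-- The graph `G` with a new vertex `none` joined to the vertices of `U`. -/
def apex (G : SimpleGraph V) (U : Set V) : SimpleGraph (Option V) where
  Adj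
    | some a, some b => G.Adj a b
    | none, some b => b ∈ U
    | some a, none => a ∈ U
    | none, none => False
  symm := ⟨by rintro (_ | a) (_ | b) h <;> first | exact h | exact h.symm⟩
  loopless := ⟨by rintro (_ | a) h; exacts [h, G.irrefl h]⟩

theorem apex_mono {G H : SimpleGraph V} (h : G ≤ H) (U : Set V) : apex G U ≤ apex H U := by
  rintro (_ | a) (_ | b) e
  exacts [e, e, e, h e]

theorem Coc.add_apex (c : Coc G) (w u v : V) (hu : u ≠ w) (hv : v ≠ w) (f g : V → ZMod 2)
    (hf : c.Pot w u f {a | a ≠ w ∧ a ≠ u}) (hg : c.Pot w v g {a | a ≠ w ∧ a ≠ v}) (k : ZMod 2)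
    (hk : ∀ a, G.Adj w a → a ≠ u → a ≠ v →
      c.x w a u + c.x w a v + f a + g a + c.t a u + c.t a v = k) :
    HT (apex G {w, u, v}) := by
  classical
  let F : V → ZMod 2 := fun a => if a = w then 0 else f a
  let H : V → ZMod 2 := fun a => if a = w then k + c.t w u + c.t w v else g a
  let y : V → ZMod 2 := fun a => if a = u then
      c.x w a v + H a + H w + c.t a w + c.t a v + c.t w v
    else c.x w a u + F a + F w + c.t a w + c.t a u + c.t w u
  let Y : V → V → ZMod 2 := fun a b => if a = w then y b else if b = w then y a else c.x a b w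
  let Z : V → V → ZMod 2 := fun a b => if a = w then 0 else if a = u then F b else H b
  let t : Option V → Option V → ZMod 2
    | some a, some b => c.t a b
    | some a, none => if a = w then 0 else c.t a w
    | none, some b => if b = w then 1 else c.t w b
    | none, none => 0
  let x : Option V → Option V → Option V → ZMod 2
    | some a, some b, some d => c.x a b d
    | some a, some b, none => Y a b
    | some a, none, some d => Z a d
    | none, some a, some d => Z a d
    | _, _, _ => 0
  have yu : ∀ a, a ≠ u → y a = c.x w a u + F a + F w + c.t a w + c.t a u + c.t w u :=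
    fun a h => if_neg h
  have yv : ∀ a, G.Adj w a → a ≠ v →
      y a = c.x w a v + H a + H w + c.t a w + c.t a v + c.t w v := by
    intro a e h
    by_cases m : a = u
    · exact if_pos m
    · have := hk a e m h
      rw [yu a m]
      simp only [F, H, e.ne', if_true, if_false]
      linear_combination (norm := (ring_nf; reduce_mod_char)) this
  have main : ∀ a b d, G.Adj a b → d ∈ ({w, u, v} : Set V) → a ≠ d → b ≠ d →
      Y a b + c.x a b d + Z d a + Z d b =
        t (some a) none + c.t a d + t (some b) none + c.t b d := by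
    have half : ∀ b d, G.Adj w b → d ∈ ({w, u, v} : Set V) → w ≠ d → b ≠ d →
        y b + c.x w b d + Z d w + Z d b = c.t w d + c.t b w + c.t b d := by
      intro b d e hd h1 h2
      by_cases m : d = u
      · subst m
        rw [yu b h2]
        simp only [Z, hu, if_true, if_false]
        ring_nf; reduce_mod_char
      · have : d = v := by
          rcases hd with h | h | h
          exacts [absurd h.symm h1, absurd h m, h]
        subst this
        rw [yv b e h2]
        simp only [Z, hv, m, if_false]
        ring_nf; reduce_mod_char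
    intro a b d e hd h1 h2
    by_cases ma : a = w
    · subst ma
      simp only [Y, t, e.ne', if_true, if_false]
      linear_combination half b d e hd h1 h2
    · by_cases mb : b = w
      · subst mb
        simp only [Y, t, ma, if_true, if_false]
        rw [c.symm a b d]
        linear_combination half a d e.symm hd h2 h1
      · simp only [Y, t, ma, mb, if_false]
        by_cases md : d = w
        · subst md
          simp only [Z, if_true]
          ring_nf; reduce_mod_char
        · by_cases m : d = u
          · subst m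
            simp only [Z, F, md, ma, mb, if_true, if_false]
            linear_combination hf a b e ⟨ma, h1⟩ ⟨mb, h2⟩
          · have : d = v := by
              rcases hd with h | h | h
              exacts [absurd h md, absurd h m, h]
            subst this
            simp only [Z, H, md, m, ma, mb, if_false]
            linear_combination hg a b e ⟨ma, h1⟩ ⟨mb, h2⟩
  have anti : ∀ a b, a ≠ b → t a b + t b a = 1 := by
    rintro (_ | a) (_ | b) h
    · exact absurd rfl h
    · by_cases m : b = w <;> simp only [t, m, if_true, if_false]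
      · ring
      · exact c.anti _ _ (Ne.symm m)
    · by_cases m : a = w <;> simp only [t, m, if_true, if_false]
      · ring
      · exact c.anti _ _ m
    · exact c.anti _ _ fun e => h (congrArg _ e)
  refine ⟨⟨t, x, anti, ?_, ?_⟩⟩
  · rintro (_ | a) (_ | b) (_ | d) <;> try rfl
    · show Y a b = Y b a
      by_cases ma : a = w <;> by_cases mb : b = w <;> simp only [Y, ma, mb, if_true, if_false]
      exact c.symm _ _ _
    · exact c.symm _ _ _
  · rintro (_ | a) (_ | b) (_ | p) (_ | q) h1 h2 e1 e2 e3 e4 <;>
      first | exact absurd h1 id | exact absurd h2 id | exact absurd rfl e1 | exact absurd rfl e2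
            | exact absurd rfl e3 | exact absurd rfl e4 | skip
    · have m := main p q b h2 h1 (fun e => e3 (congrArg _ e.symm)) (fun e => e4 (congrArg _ e.symm))
      have a1 := anti _ _ e1
      have a2 := anti _ _ e2
      have a3 := anti _ _ e3
      have a4 := anti _ _ e4
      show Z b p + Z b q + Y p q + c.x p q b = _
      simp only [t] at *
      linear_combination (norm := (ring_nf; reduce_mod_char)) m + a1 + a2 + a3 + a4
    · have m := main p q a h2 h1 (fun e => e1 (congrArg _ e.symm)) (fun e => e2 (congrArg _ e.symm))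
      have a1 := anti _ _ e1
      have a2 := anti _ _ e2
      have a3 := anti _ _ e3
      have a4 := anti _ _ e4
      show Z a p + Z a q + c.x p q a + Y p q = _
      simp only [t] at *
      linear_combination (norm := (ring_nf; reduce_mod_char)) m + a1 + a2 + a3 + a4
    · have m := main a b q h1 h2 (fun e => e2 (congrArg _ e)) (fun e => e4 (congrArg _ e))
      show Y a b + c.x a b q + Z q a + Z q b = _
      simp only [t] at *
      linear_combination m
    · have m := main a b p h1 h2 (fun e => e1 (congrArg _ e)) (fun e => e3 (congrArg _ e))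
      show c.x a b p + Y a b + Z p a + Z p b = _
      simp only [t] at *
      linear_combination m
    · exact c.eqn a b p q h1 h2 (fun e => e1 (congrArg _ e)) (fun e => e2 (congrArg _ e))
        (fun e => e3 (congrArg _ e)) (fun e => e4 (congrArg _ e))

end Pool.Agent.Shared.Planar
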