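import Mathlib
import Pool.Agent.Shared.Planar.Extend

/-!
# Facial triangles in locally edge-maximal graphs
-/

namespace Pool.Agent.Shared.Planar

open SimpleGraph

variable {V : Type*} {H : SimpleGraph V}

/-- There is a path from `u` to `v` with interior in `B`. -/
def Con (H : SimpleGraph V) (u v : V) (B : Set V) : Prop :=
  ∃ a ∈ B, ∃ b ∈ B, H.Adj u a ∧ H.Adj v b ∧ R H B a b

/-- The vertices reachable from `u` through `B`. -/
def Rs (H : SimpleGraph V) (u : V) (B : Set V) : Set V :=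
  {b | ∃ a ∈ B, H.Adj u a ∧ R H B a b}

theorem Con.symm {u v : V} {B : Set V} (h : Con H u v B) : Con H v u B :=
  let ⟨a, ha, b, hb, e1, e2, r⟩ := h; ⟨b, hb, a, ha, e2, e1, r.symm⟩

theorem Rs.mem {u b : V} {B : Set V} (h : b ∈ Rs H u B) : b ∈ B :=
  let ⟨_, ha, _, r⟩ := h; r.mem ha

theorem Rs.step {u b c : V} {B : Set V} (h : b ∈ Rs H u B) (hc : c ∈ B) (e : H.Adj b c) :
    c ∈ Rs H u B :=
  let ⟨a, ha, e1, r⟩ := h; ⟨a, ha, e1, r.tail (r.mem ha) hc e⟩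

theorem Rs.con {u v b : V} {B : Set V} (h : b ∈ Rs H u B) (e : H.Adj v b) : Con H u v B :=
  let ⟨a, ha, e1, r⟩ := h; ⟨a, ha, b, r.mem ha, e1, e, r⟩

theorem Rs.path {u b : V} {B T : Set V} (h : b ∈ Rs H u B) (hT : Rs H u B ⊆ T) (hu : u ∈ T) :
    R H T u b := by
  obtain ⟨a, ha, e1, r⟩ := h
  exact (R.single hu (hT ⟨a, ha, e1, R.refl⟩) e1).trans
    (r.restrict fun p hp _ => hT ⟨a, ha, e1, hp⟩)

theorem Con.path {u v q : V} {B T : Set V} (h : Con H u v B) (hn : ¬ Con H u v (B \ {q}))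
    (hT : Rs H u (B \ {q}) ⊆ T) (hu : u ∈ T) (hq : q ∈ T) : R H T u q := by
  obtain ⟨a, ha, b, hb, e1, e2, r⟩ := h
  have : b ∈ Rs H u (B \ {q}) ∨ R H T u q := by
    refine r.ind (fun c => c ∈ Rs H u (B \ {q}) ∨ R H T u q) ?_ ?_
    · by_cases m : a = q
      · exact Or.inr (R.single hu hq (m ▸ e1))
      · exact Or.inl ⟨a, ⟨ha, m⟩, e1, R.refl⟩
    · rintro c d _ hd e (k | k)
      · by_cases m : d = q
        · exact Or.inr ((Rs.path k hT hu).tail (hT k) hq (m ▸ e))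
        · exact Or.inl (Rs.step k ⟨hd, m⟩ e)
      · exact Or.inr k
  exact this.resolve_left fun k => hn (Rs.con k e2)

theorem Cn.insert {M : Set V} (h : Cn H M) {q m : V} (hm : m ∈ M) (e : H.Adj q m) :
    Cn H (insert q M) := by
  refine Cn.of_root m ?_
  rintro a (rfl | ha)
  · exact R.single (Or.inr hm) (Or.inl rfl) e.symm
  · exact (h m hm a ha).mono (Set.subset_insert _ _) le_rfl

theorem common_nbr [Finite V] (hH : HT H) {u v : V} (huv : H.Adj u v) {K Q : Set V}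
    (hK : Cn H K) (hQ : Cn H Q) (uK : u ∉ K) (vK : v ∉ K) (uQ : u ∉ Q) (vQ : v ∉ Q)
    (hKQ : ∀ a, a ∈ K → a ∈ Q → False)
    (hN : ∀ a ∈ K, ∀ b, H.Adj a b → b ∈ K ∨ b ∈ Q ∨ b = u ∨ b = v)
    (hu : ∃ a ∈ K, H.Adj u a) (hv : ∃ a ∈ K, H.Adj v a)
    (hmax : ∀ p q, (p ∈ K ∨ p = u ∨ p = v) → (q ∈ K ∨ q = u ∨ q = v) → p ≠ q →
      HT (H ⊔ edge p q) → H.Adj p q) :
    ∃ w ∈ K, H.Adj u w ∧ H.Adj v w := by
  classical
  let P : Set V → Prop := fun M => Cn H M ∧ M ⊆ K ∪ Q ∧ (Tch H K Q → Q ⊆ M) ∧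
    (¬ Tch H K Q → M ⊆ K) ∧ Con H u v (K \ M)
  have conK : Con H u v K :=
    let ⟨a, ha, e1⟩ := hu; let ⟨b, hb, e2⟩ := hv; ⟨a, ha, b, hb, e1, e2, hK a ha b hb⟩
  have hP : ∃ M, P M := by
    by_cases t : Tch H K Q
    · refine ⟨Q, hQ, Set.subset_union_right, fun _ => le_rfl, fun k => absurd t k, ?_⟩
      have : K \ Q = K := by
        ext a; exact ⟨fun h => h.1, fun h => ⟨h, hKQ a h⟩⟩
      rwa [this]
    · exact ⟨∅, fun a h => absurd h (Set.notMem_empty a), Set.empty_subset _,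
        fun k => absurd k t, fun _ => Set.empty_subset _, by simpa using conK⟩
  obtain ⟨M, ⟨cM, sM, tM, nM, con⟩, maxM⟩ := (Set.toFinite {M | P M}).exists_maximal hP
  let att : V → Prop := fun q => q ∈ K \ M ∧ Cn H (insert q M)
  have cut : ∀ q, att q → ¬ Con H u v ((K \ M) \ {q}) := by
    intro q hq k
    have : P (insert q M) := by
      refine ⟨hq.2, Set.insert_subset (Or.inl hq.1.1) sM,
        fun t => (tM t).trans (Set.subset_insert _ _),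
        fun t => Set.insert_subset hq.1.1 (nM t), ?_⟩
      have : K \ insert q M = (K \ M) \ {q} := by ext a; simp; tauto
      rwa [this]
    exact hq.1.2 (maxM this (Set.subset_insert _ _) (Set.mem_insert _ _))
  have exatt : ∃ q, att q := by
    obtain ⟨a, ha, _⟩ := con
    rcases M.eq_empty_or_nonempty with e | ⟨m, hm⟩
    · refine ⟨a, ha, ?_⟩
      rw [e]
      refine Cn.of_root a ?_
      rintro b (rfl | hb)
      exacts [R.refl, absurd hb (Set.notMem_empty b)]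
    · by_contra hcon
      have no : ∀ q ∈ K \ M, ∀ m ∈ M, ¬ H.Adj q m :=
        fun q hq m hm e => hcon ⟨q, hq, cM.insert hm e⟩
      have all : ∀ b ∈ K, b ∉ M := fun b hb =>
        (hK a ha.1 b hb).ind (fun c => c ∉ M) ha.2 fun p q hp _ e k m => no p ⟨hp, k⟩ q m e
      have t : Tch H K Q := by
        by_contra t
        exact all m (nM t hm) hm
      obtain ⟨p, hp, r, hr, e⟩ := t
      exact no p ⟨hp, all p hp⟩ r (tM ⟨p, hp, r, hr, e⟩ hr) e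
  obtain ⟨q, hq, minq⟩ := (Set.toFinite {q | att q}).exists_minimalFor
    (fun q => Rs H u ((K \ M) \ {q})) _ exatt
  replace hq : att q := hq
  set B := Rs H u ((K \ M) \ {q}) with hB
  have noatt : ∀ q' ∈ B, ¬ att q' := by
    intro q' h1 h2
    have h3 : q ∉ Rs H u ((K \ M) \ {q'}) := by
      intro h3
      obtain ⟨a, ha, b, hb, e1, e2, r⟩ := con
      have : b ∈ B ∨ b ∈ Rs H u ((K \ M) \ {q'}) := by
        refine r.ind (fun c => c ∈ B ∨ c ∈ Rs H u ((K \ M) \ {q'})) ?_ ?_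
        · by_cases m : a = q
          · exact Or.inr (m ▸ h3)
          · exact Or.inl ⟨a, ⟨ha, m⟩, e1, R.refl⟩
        · rintro c d _ hd e (k | k)
          · by_cases m : d = q
            · exact Or.inr (m ▸ h3)
            · exact Or.inl (Rs.step k ⟨hd, m⟩ e)
          · by_cases m : d = q'
            · exact Or.inl (m ▸ h1)
            · exact Or.inr (Rs.step k ⟨hd, m⟩ e)
      rcases this with k | k
      exacts [cut q hq (Rs.con k e2), cut q' h2 (Rs.con k e2)]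
    have h4 : Rs H u ((K \ M) \ {q'}) ⊆ B := by
      rintro b ⟨a, ha, e1, r⟩
      refine ⟨a, ⟨ha.1, fun m => h3 ⟨a, ha, e1, m ▸ R.refl⟩⟩, e1, r.restrict fun p hp k => ?_⟩
      exact ⟨k.1, fun m => h3 ⟨a, ha, e1, m ▸ hp⟩⟩
    exact (Rs.mem (minq h2 h4 h1)).2 rfl
  have nB : ∀ b ∈ B, ∀ c, H.Adj b c → c ∈ B ∨ c = u ∨ c = q := by
    intro b hb c e
    have hb' := Rs.mem hb
    have cM' : c ∉ M := fun m => noatt b hb ⟨hb'.1, cM.insert m e⟩
    rcases hN b hb'.1.1 c e with k | k | k | k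
    · by_cases m : c = q
      · exact Or.inr (Or.inr m)
      · exact Or.inl (Rs.step hb ⟨⟨k, cM'⟩, m⟩ e)
    · exact absurd (tM ⟨b, hb'.1.1, c, k, e⟩ k) cM'
    · exact Or.inr (Or.inl k)
    · exact absurd (Rs.con hb (k ▸ e.symm)) (cut q hq)
  set B' := Rs H v ((K \ M) \ {q}) with hB'
  have dBB : ∀ c, c ∈ B' → c ∈ B → False := by
    rintro c ⟨a, ha, e1, r⟩ ⟨b, hb, e2, s⟩
    exact cut q hq ⟨b, hb, a, ha, e2, e1, s.trans r.symm⟩
  have uM : u ∉ M := fun m => (sM m).elim uK uQ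
  have vM : v ∉ M := fun m => (sM m).elim vK vQ
  have uq : u ≠ q := fun e => uK (e ▸ hq.1.1)
  have vq : v ≠ q := fun e => vK (e ▸ hq.1.1)
  have p2 : ∀ T, B' ⊆ T → v ∈ T → q ∈ T → R H T v q :=
    fun T h1 h2 h3 => con.symm.path (fun k => cut q hq k.symm) h1 h2 h3
  have e1 : H.Adj u q := by
    refine hmax u q (Or.inr (Or.inl rfl)) (Or.inl hq.1.1) uq (hH.glue u q B
      {c | c ∉ B ∧ c ≠ u ∧ c ≠ q} (B' ∪ {u, v, q}) (B ∪ {u, q}) ?_ ?_ ?_ (by simp) ?_ ?_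
      (by simp) ?_)
    · intro a b e a1 a2 b1 b2
      by_cases m : a ∈ B
      · exact Or.inl ⟨m, ((nB a m b e).resolve_right (by tauto))⟩
      · exact Or.inr ⟨⟨m, a1, a2⟩, fun k => m ((nB b k a e.symm).resolve_right (by tauto)), b1, b2⟩
    · exact fun a ha => absurd ha.1 ha.2.1
    · exact (R.single (by simp) (by simp) huv).trans
        (p2 _ Set.subset_union_left (by simp) (by simp))
    · rintro c (k | rfl | rfl | rfl) m
      exacts [dBB c k m, uK (Rs.mem m).1.1, vK (Rs.mem m).1.1, (Rs.mem m).2 rfl]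
    · exact con.path (cut q hq) Set.subset_union_left (by simp) (by simp)
    · rintro c (k | rfl | rfl) m
      exacts [m.1 k, m.2.1 rfl, m.2.2 rfl]
  have e2 : H.Adj v q := by
    refine hmax v q (Or.inr (Or.inr rfl)) (Or.inl hq.1.1) vq (hH.glue v q
      (M ∪ {c | c ∈ K \ M ∧ c ∉ B ∧ c ≠ q}) {c | c ≠ q ∧ c ≠ v ∧ ¬ (c ∈ K \ M ∧ c ∉ B)}
      {u, v, q} (B' ∪ {v, q}) ?_ ?_ ?_ (by simp) ?_ ?_ (by simp) ?_)
    · have half : ∀ a b, H.Adj a b → b ≠ v → a ≠ q → b ≠ q → a ∈ K \ M → a ∉ B →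
          b ∈ M ∪ {c | c ∈ K \ M ∧ c ∉ B ∧ c ≠ q} := by
        intro a b e b1 a2 b2 m1 m2
        by_cases bM : b ∈ M
        · exact Or.inl bM
        rcases hN a m1.1 b e with k | k | k | k
        · exact Or.inr ⟨⟨k, bM⟩, fun m => m2 (Rs.step m ⟨m1, a2⟩ e.symm), b2⟩
        · exact absurd (tM ⟨a, m1.1, b, k, e⟩ k) bM
        · exact absurd ⟨a, ⟨m1, a2⟩, k ▸ e.symm, R.refl⟩ m2
        · exact absurd k b1
      intro a b e a1 a2 b1 b2
      by_cases m : a ∈ K \ M ∧ a ∉ B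
      · exact Or.inl ⟨Or.inr ⟨m.1, m.2, a2⟩, half a b e b1 a2 b2 m.1 m.2⟩
      · by_cases k : b ∈ K \ M ∧ b ∉ B
        · exact Or.inl ⟨half b a e.symm a1 b2 a2 k.1 k.2, Or.inr ⟨k.1, k.2, b2⟩⟩
        · exact Or.inr ⟨⟨a2, a1, m⟩, b2, b1, k⟩
    · have : (M ∪ {c | c ∈ K \ M ∧ c ∉ B ∧ c ≠ q}) ∩
          {c | c ≠ q ∧ c ≠ v ∧ ¬ (c ∈ K \ M ∧ c ∉ B)} = M := by
        ext c
        constructor
        · rintro ⟨k | k, m⟩
          exacts [k, absurd ⟨k.1, k.2.1⟩ m.2.2]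
        · intro k
          exact ⟨Or.inl k, fun e => hq.1.2 (e ▸ k), fun e => vM (e ▸ k), fun m => m.1.2 k⟩
      rwa [this]
    · exact (R.single (by simp) (by simp) huv.symm).tail (by simp) (by simp) e1
    · rintro c (rfl | rfl | rfl) (m | m)
      exacts [uM m, uK m.1.1, vM m, vK m.1.1, hq.1.2 m, m.2.2 rfl]
    · exact p2 _ Set.subset_union_left (by simp) (by simp)
    · rintro c (k | rfl | rfl) m
      exacts [m.2.2 ⟨(Rs.mem k).1, dBB c k⟩, m.2.1 rfl, m.1 rfl]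
  exact ⟨q, hq.1.1, e1, e2⟩

/-- `a` lies in a component of `H - {w, u, v}` attached to all of `w`, `u`, `v`. -/
def Tri (H : SimpleGraph V) (w u v a : V) : Prop :=
  a ∈ ({w, u, v}ᶜ : Set V) ∧ (∃ c, R H {w, u, v}ᶜ a c ∧ H.Adj w c) ∧
    (∃ c, R H {w, u, v}ᶜ a c ∧ H.Adj u c) ∧ ∃ c, R H {w, u, v}ᶜ a c ∧ H.Adj v c

theorem facial [Finite V] (hH : HT H) {u v : V} (huv : H.Adj u v) (n : ℕ) : ∀ {K Q : Set V}
    (_ : K.ncard = n) (_ : Cn H K) (_ : Cn H Q) (_ : u ∉ K) (_ : v ∉ K) (_ : u ∉ Q) (_ : v ∉ Q)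
    (_ : ∀ a, a ∈ K → a ∈ Q → False)
    (_ : ∀ a ∈ K, ∀ b, H.Adj a b → b ∈ K ∨ b ∈ Q ∨ b = u ∨ b = v)
    (_ : ∃ a ∈ K, H.Adj u a) (_ : ∃ a ∈ K, H.Adj v a)
    (_ : ∀ p q, (p ∈ K ∨ p = u ∨ p = v) → (q ∈ K ∨ q = u ∨ q = v) → p ≠ q →
      HT (H ⊔ edge p q) → H.Adj p q),
    ∃ w ∈ K, H.Adj u w ∧ H.Adj v w ∧
      ∀ a b, Tri H w u v a → Tri H w u v b → R H {w, u, v}ᶜ a b := by
  induction n using Nat.strong_induction_on with
  | _ n ih =>
  intro K Q hn hK hQ uK vK uQ vQ hKQ hN hu hv hmax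
  obtain ⟨w, hw, e1, e2⟩ := common_nbr hH huv hK hQ uK vK uQ vQ hKQ hN hu hv hmax
  by_cases h : ∀ a, Tri H w u v a → ∃ r ∈ Q, R H {w, u, v}ᶜ a r
  · refine ⟨w, hw, e1, e2, fun a b ha hb => ?_⟩
    obtain ⟨r, hr, p1⟩ := h a ha
    obtain ⟨s, hs, p2⟩ := h b hb
    refine p1.trans (((hQ r hr s hs).mono ?_ le_rfl).trans p2.symm)
    rintro c hc (rfl | rfl | rfl)
    exacts [hKQ _ hw hc, uQ hc, vQ hc]
  · push Not at h
    obtain ⟨a, ⟨ha, ⟨c, hc, ec⟩, ⟨cu, hcu, ecu⟩, ⟨cv, hcv, ecv⟩⟩, noQ⟩ := h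
    let K' : Set V := {c | R H {w, u, v}ᶜ a c}
    have off : ∀ c ∈ K', c ≠ w ∧ c ≠ u ∧ c ≠ v := fun c hc => by
      simpa [not_or] using R.mem hc ha
    have inK : ∀ p ∈ K, ∀ q ∈ K', H.Adj p q → q ∈ K := fun p hp q hq e => by
      rcases hN p hp q e with k | k | k | k
      exacts [k, absurd hq (noQ q k), absurd k (off q hq).2.1, absurd k (off q hq).2.2]
    have cK : Cn H K' := Cn.of_root a fun b hb => R.restrict hb fun _ hp _ => hp
    have sub : K' ⊆ K := fun b hb =>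
      (cK c hc b hb).ind (fun p => p ∈ K) (inK w hw c hc ec) fun p q _ hq e k => inK p k q hq e
    have lt : K'.ncard < n := hn ▸ Set.ncard_lt_ncard
      ⟨sub, fun k => (off w (k hw)).1 rfl⟩ (Set.toFinite _)
    obtain ⟨w', h1, h2⟩ := ih _ lt (K := K') (Q := {w}) rfl cK
      (Cn.of_root w (by rintro _ rfl; exact R.refl)) (fun k => (off u k).2.1 rfl)
      (fun k => (off v k).2.2 rfl) e1.ne e2.ne (fun p hp k => (off p hp).1 k)
      (fun p hp q e => by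
        by_cases m : q ∈ ({w, u, v}ᶜ : Set V)
        · exact Or.inl (R.tail hp (R.mem hp ha) m e)
        · exact Or.inr (by simpa using not_not.1 m))
      ⟨cu, hcu, ecu⟩ ⟨cv, hcv, ecv⟩
      (fun p q hp hq => hmax p q (hp.imp_left fun k => sub k) (hq.imp_left fun k => sub k))
    exact ⟨w', sub h1, h2⟩

theorem apex_of_facial (hH : HT H) {w u v : V} (huv : H.Adj u v) (huw : H.Adj u w)
    (hvw : H.Adj v w) (h : ∀ a b, Tri H w u v a → Tri H w u v b → R H {w, u, v}ᶜ a b) :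
    HT (apex H {w, u, v}) := by
  classical
  obtain ⟨c⟩ := hH
  let D : Set V := {w, u, v}ᶜ
  have hD : ∀ a, a ∈ D ↔ a ≠ w ∧ a ≠ u ∧ a ≠ v := fun a => by simp [D, not_or]
  let σ : V → ZMod 2 := fun a => c.x u v a + c.x w u a + c.x w v a
  have σe : ∀ a b, a ∈ D → b ∈ D → H.Adj a b → σ b = σ a := by
    intro a b ha hb e
    obtain ⟨a1, a2, a3⟩ := (hD a).1 ha
    obtain ⟨b1, b2, b3⟩ := (hD b).1 hb
    simp only [σ]
    linear_combination (norm := (ring_nf; reduce_mod_char)) c.eqn a b u v e huv a2 a3 b2 b3 +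
      c.eqn a b w u e huw.symm a1 a2 b1 b2 + c.eqn a b w v e hvw.symm a1 a3 b1 b3
  have hκ : ∃ κ, ∀ a, Tri H w u v a → σ a = κ := by
    by_cases m : ∃ a, Tri H w u v a
    · obtain ⟨a, ha⟩ := m
      exact ⟨σ a, fun b hb => (h a b ha hb).ind (fun p => σ p = σ a) rfl
        fun p q hp hq e k => (σe p q hp hq e).trans k⟩
    · exact ⟨0, fun a ha => absurd ⟨a, ha⟩ m⟩
  obtain ⟨κ, hκ⟩ := hκ
  let T : V → V → Prop := fun y a => ∃ c, R H D a c ∧ H.Adj y c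
  have Te : ∀ y a b, a ∈ D → b ∈ D → H.Adj a b → (T y a ↔ T y b) := fun y a b ha hb e =>
    ⟨fun ⟨c, r, k⟩ => ⟨c, (R.single hb ha e.symm).trans r, k⟩,
      fun ⟨c, r, k⟩ => ⟨c, (R.single ha hb e).trans r, k⟩⟩
  let Bu : V → Prop := fun a => a ∈ D ∧ σ a ≠ κ ∧ ¬ T v a
  let Bv : V → Prop := fun a => a ∈ D ∧ σ a ≠ κ ∧ T v a ∧ ¬ T u a
  have Bue : ∀ a b, H.Adj a b → b ≠ w → b ≠ u → Bu a → Bu b := by
    intro a b e b1 b2 ⟨h1, h2, h3⟩
    have hb : b ∈ D := (hD b).2 ⟨b1, b2, fun k => h3 ⟨a, R.refl, k ▸ e.symm⟩⟩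
    exact ⟨hb, (σe a b h1 hb e).symm ▸ h2, fun k => h3 ((Te v a b h1 hb e).2 k)⟩
  have Bve : ∀ a b, H.Adj a b → b ≠ w → b ≠ v → Bv a → Bv b := by
    intro a b e b1 b2 ⟨h1, h2, h3, h4⟩
    have hb : b ∈ D := (hD b).2 ⟨b1, fun k => h4 ⟨a, R.refl, k ▸ e.symm⟩, b2⟩
    exact ⟨hb, (σe a b h1 hb e).symm ▸ h2, (Te v a b h1 hb e).1 h3,
      fun k => h4 ((Te u a b h1 hb e).2 k)⟩
  refine c.add_apex w u v huw.ne hvw.ne (fun a => c.x w u a + if Bu a then 1 else 0)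
    (fun a => c.x w v a + if Bv a then 1 else 0) ?_ ?_ (κ + c.x u v w + c.t w u + c.t w v) ?_
  · intro a b e ha hb
    have : Bu a ↔ Bu b := ⟨Bue a b e hb.1 hb.2, Bue b a e.symm ha.1 ha.2⟩
    simp only [this]
    linear_combination (norm := (ring_nf; reduce_mod_char))
      c.eqn a b w u e huw.symm ha.1 ha.2 hb.1 hb.2
  · intro a b e ha hb
    have : Bv a ↔ Bv b := ⟨Bve a b e hb.1 hb.2, Bve b a e.symm ha.1 ha.2⟩
    simp only [this]
    linear_combination (norm := (ring_nf; reduce_mod_char))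
      c.eqn a b w v e hvw.symm ha.1 ha.2 hb.1 hb.2
  · intro a e a2 a3
    have ha : a ∈ D := (hD a).2 ⟨e.ne', a2, a3⟩
    have q := c.eqn w a u v e huv huw.ne' hvw.ne' a2 a3
    have : σ a + (if Bu a then 1 else 0) + (if Bv a then 1 else 0) = κ := by
      by_cases m : σ a = κ
      · rw [if_neg fun k : Bu a => k.2.1 m, if_neg fun k : Bv a => k.2.1 m, m]; ring
      · have m' : σ a + 1 = κ := (by decide : ∀ s k : ZMod 2, s ≠ k → s + 1 = k) _ _ m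
        by_cases t : T v a
        · have : ¬ T u a := fun k => m (hκ a ⟨ha, ⟨a, R.refl, e⟩, k, t⟩)
          rw [if_neg fun k : Bu a => k.2.2 t, if_pos (show Bv a from ⟨ha, m, t, this⟩), ← m']; ring
        · rw [if_pos (show Bu a from ⟨ha, m, t⟩), if_neg fun k : Bv a => t k.2.2.1, ← m']; ring
    simp only [σ] at this
    linear_combination (norm := (ring_nf; reduce_mod_char)) this + q

end Pool.Agent.Shared.Planar
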