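import Mathlib
import Pool.Agent.Shared.Planar.Face

/-!
# Every bramble of a planar graph is covered by three root paths with cofacial ends
-/

namespace Pool.Agent.Shared.Planar

open SimpleGraph

variable {V : Type*} {G : SimpleGraph V}

/-- A rooted spanning tree given by a parent function. -/
structure Tree (G : SimpleGraph V) where
  root : V
  par : V → V
  dep : V → ℕ
  par_root : par root = root
  adj : ∀ v, v ≠ root → G.Adj v (par v)
  lt : ∀ v, v ≠ root → dep (par v) < dep v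

namespace Tree

variable (T : Tree G)

/-- The path from `u` to the root. -/
def P (u : V) : Set V := {a | ∃ n, T.par^[n] u = a}

variable {T}

theorem self (u : V) : u ∈ T.P u := ⟨0, rfl⟩

theorem trans {u a b : V} (h : a ∈ T.P u) (k : b ∈ T.P a) : b ∈ T.P u := by
  obtain ⟨n, rfl⟩ := h
  obtain ⟨m, rfl⟩ := k
  exact ⟨m + n, Function.iterate_add_apply _ _ _ _⟩

theorem total {u a b : V} (h : a ∈ T.P u) (k : b ∈ T.P u) : a ∈ T.P b ∨ b ∈ T.P a := by
  obtain ⟨n, rfl⟩ := h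
  obtain ⟨m, rfl⟩ := k
  rcases le_total n m with e | e <;> obtain ⟨j, rfl⟩ := Nat.exists_eq_add_of_le' e
  · exact Or.inr ⟨j, (Function.iterate_add_apply _ _ _ _).symm⟩
  · exact Or.inl ⟨j, (Function.iterate_add_apply _ _ _ _).symm⟩

theorem eq_or_lt {a b : V} (h : a ∈ T.P b) : a = b ∨ T.dep a < T.dep b := by
  obtain ⟨n, rfl⟩ := h
  induction n with
  | zero => exact Or.inl rfl
  | succ n ih =>
    rw [Function.iterate_succ_apply']
    by_cases e : T.par^[n] b = T.root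
    · rwa [e, T.par_root, ← e]
    · have := T.lt _ e
      rcases ih with k | k
      · rw [k] at this ⊢; exact Or.inr this
      · exact Or.inr (this.trans k)

theorem antisymm {a b : V} (h : a ∈ T.P b) (k : b ∈ T.P a) : a = b := by
  rcases eq_or_lt h with e | e
  · exact e
  · rcases eq_or_lt k with f | f
    · exact f.symm
    · omega

theorem root_mem (u : V) : T.root ∈ T.P u := by
  induction hn : T.dep u using Nat.strong_induction_on generalizing u with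
  | _ n ih =>
    by_cases e : u = T.root
    · exact e ▸ self u
    · exact trans ⟨1, rfl⟩ (ih _ (hn ▸ T.lt u e) (T.par u) rfl)

theorem up {S : Set V} {a b : V} (h : b ∈ T.P a) (hS : ∀ c ∈ T.P a, b ∈ T.P c → c ∈ S) :
    R G S a b := by
  obtain ⟨n, rfl⟩ := h
  induction n generalizing a with
  | zero => exact R.refl
  | succ n ih =>
    rw [Function.iterate_succ_apply] at hS ⊢
    have r := ih (a := T.par a) fun c hc k => hS c (trans ⟨1, rfl⟩ hc) k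
    by_cases e : a = T.root
    · have : T.par a = a := by rw [e, T.par_root]
      rw [this] at r ⊢
      exact r
    · exact (R.single (hS a (self a) ⟨n + 1, rfl⟩) (hS _ ⟨1, rfl⟩ ⟨n, rfl⟩) (T.adj a e)).trans r

theorem deepest [Finite V] {N : Set V} {a : V} (h : (N ∩ T.P a).Nonempty) :
    ∃ u ∈ N ∩ T.P a, N ∩ T.P a ⊆ T.P u := by
  obtain ⟨u, hu, hm⟩ := Set.exists_max_image _ T.dep (Set.toFinite _) h
  refine ⟨u, hu, fun b hb => (total hb.2 hu.2).elim id fun k => ?_⟩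
  rcases eq_or_lt k with e | e
  · exact e ▸ self u
  · exact absurd (hm b hb) (not_le.2 e)

end Tree

theorem HT.of_apex {U : Set V} (h : HT (apex G U)) : HT G :=
  h.comap some (Option.some_injective V) fun _ _ e => e

theorem HT.apex_edge (h : HT G) {w u : V} (e : G.Adj w u) : HT (apex G {w, u, u}) := by
  obtain ⟨c⟩ := h
  have : c.Pot w u (c.x w u) {a | a ≠ w ∧ a ≠ u} := fun a b k ha hb =>
    c.eqn a b w u k e ha.1 ha.2 hb.1 hb.2
  refine c.add_apex w u u e.ne' e.ne' _ _ this this 0 fun a _ _ _ => ?_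
  ring_nf; reduce_mod_char

theorem R.lift {S : Set V} {T : Set (Option V)} {U : Set V} {a b : V} (h : R G S a b)
    (hS : ∀ p ∈ S, some p ∈ T) : R (apex G U) T (some a) (some b) :=
  h.map some hS fun _ _ e => e

theorem Cn.lift {S : Set V} {U : Set V} (h : Cn G S) : Cn (apex G U) (some '' S) := by
  rintro _ ⟨a, ha, rfl⟩ _ ⟨b, hb, rfl⟩
  exact (h a ha b hb).lift fun p hp => ⟨p, hp, rfl⟩

/-- The outer neighbourhood of a vertex set. -/
def Nb (G : SimpleGraph V) (C : Set V) : Set V := {b | b ∉ C ∧ ∃ a ∈ C, G.Adj a b}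

theorem step_two [Finite V] (T : Tree G) {U C : Set V} {a b : V} (h : HT (apex G U))
    (ha : a ∈ U) (hb : b ∈ U) (hC : Cn G C) (hne : C.Nonempty)
    (hU : ∀ c ∈ C, c ∉ U) (hd : ∀ c ∈ C, c ∉ T.P a ∧ c ∉ T.P b) (hN : Nb G C ⊆ T.P a ∪ T.P b) :
    ∃ w u v, HT (apex G {w, u, v}) ∧ w ∈ C ∧ Nb G C ⊆ T.P u ∪ T.P v := by
  classical
  by_cases one : ∃ u ∈ Nb G C, Nb G C ⊆ T.P u
  · obtain ⟨u, ⟨_, w, hw, e⟩, hu⟩ := one
    exact ⟨w, u, u, h.of_apex.apex_edge e, hw, fun c hc => Or.inl (hu hc)⟩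
  have Nne : (Nb G C).Nonempty := by
    by_contra k
    obtain ⟨c, hc⟩ := hne
    refine (hd _ ?_).1 (Tree.root_mem a)
    refine (Tree.up (S := Set.univ) (Tree.root_mem (T := T) c) fun _ _ _ => trivial).ind
      (fun p => p ∈ C) hc fun p q _ _ e hp => ?_
    by_contra m
    exact k ⟨q, m, p, hp, e⟩
  have n1 : (Nb G C ∩ T.P a).Nonempty := by
    by_contra k
    have s : ∀ c ∈ Nb G C, c ∈ T.P b := fun c hc => (hN hc).resolve_left fun m => k ⟨c, hc, m⟩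
    obtain ⟨v, hv, sv⟩ := Tree.deepest (T := T) (a := b) (Nne.imp fun c hc => ⟨hc, s c hc⟩)
    exact one ⟨v, hv.1, fun c hc => sv ⟨hc, s c hc⟩⟩
  have n2 : (Nb G C ∩ T.P b).Nonempty := by
    by_contra k
    have s : ∀ c ∈ Nb G C, c ∈ T.P a := fun c hc => (hN hc).resolve_right fun m => k ⟨c, hc, m⟩
    obtain ⟨v, hv, sv⟩ := Tree.deepest (T := T) (a := a) (Nne.imp fun c hc => ⟨hc, s c hc⟩)
    exact one ⟨v, hv.1, fun c hc => sv ⟨hc, s c hc⟩⟩
  obtain ⟨u, hu, su⟩ := Tree.deepest n1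
  obtain ⟨v, hv, sv⟩ := Tree.deepest n2
  have hN' : Nb G C ⊆ T.P u ∪ T.P v := fun c hc =>
    (hN hc).imp (fun m => su ⟨hc, m⟩) fun m => sv ⟨hc, m⟩
  have uv : u ∉ T.P v := fun k =>
    one ⟨v, hv.1, fun c hc => (hN' hc).elim (fun m => Tree.trans k m) id⟩
  have vu : v ∉ T.P u := fun k =>
    one ⟨u, hu.1, fun c hc => (hN' hc).elim id fun m => Tree.trans k m⟩
  have ne : u ≠ v := fun e => uv (e ▸ Tree.self u)
  let Q : Set V := {c | (c ∈ T.P u ∨ c ∈ T.P v) ∧ c ≠ u ∧ c ≠ v}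
  have cQ : Cn G Q := by
    refine Cn.of_root T.root ?_
    rintro c ⟨k | k, c1, c2⟩ <;> refine (Tree.up (Tree.root_mem c) fun e he _ => ?_).symm
    · exact ⟨Or.inl (Tree.trans k he), fun m => c1 (Tree.antisymm k (m ▸ he)),
        fun m => vu (m ▸ Tree.trans k he)⟩
    · exact ⟨Or.inr (Tree.trans k he), fun m => uv (m ▸ Tree.trans k he),
        fun m => c2 (Tree.antisymm k (m ▸ he))⟩
  have CQ : ∀ c, c ∈ C → c ∈ Q → False := by
    rintro c hc ⟨k | k, _⟩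
    exacts [(hd c hc).1 (Tree.trans hu.2 k), (hd c hc).2 (Tree.trans hv.2 k)]
  have nC : ∀ p ∈ C, ∀ q, G.Adj p q → q ∈ C ∨ q ∈ Q ∨ q = u ∨ q = v := by
    intro p hp q e
    by_cases m : q ∈ C
    · exact Or.inl m
    · have := hN' ⟨m, p, hp, e⟩
      by_cases m1 : q = u
      · exact Or.inr (Or.inr (Or.inl m1))
      · by_cases m2 : q = v
        · exact Or.inr (Or.inr (Or.inr m2))
        · exact Or.inr (Or.inl ⟨this, m1, m2⟩)
  obtain ⟨uC, pu, hpu, eu⟩ := hu.1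
  obtain ⟨vC, pv, hpv, ev⟩ := hv.1
  have h1 : HT (apex G U ⊔ edge (some u) (some v)) := by
    refine h.glue (some u) (some v) (some '' (C ∪ Q))
      {o | o ∉ some '' C ∧ o ≠ some u ∧ o ≠ some v}
      (insert none (some '' {c | (c ∈ T.P a ∧ u ∈ T.P c) ∨ (c ∈ T.P b ∧ v ∈ T.P c)}))
      (some '' (C ∪ {u, v})) ?_ ?_ ?_ (Or.inr ⟨u, Or.inl ⟨hu.2, Tree.self u⟩, rfl⟩) ?_ ?_
      ⟨u, by simp, rfl⟩ ?_
    · have half : ∀ p q, (apex G U).Adj p q → p ≠ some u → p ≠ some v → q ≠ some u →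
          q ≠ some v → p ∈ some '' C → p ∈ some '' (C ∪ Q) ∧ q ∈ some '' (C ∪ Q) := by
        rintro _ q e _ _ q1 q2 ⟨p, hp, rfl⟩
        refine ⟨⟨p, Or.inl hp, rfl⟩, ?_⟩
        rcases q with _ | q
        · exact absurd e (hU p hp)
        · rcases nC p hp q e with k | k | k | k
          exacts [⟨q, Or.inl k, rfl⟩, ⟨q, Or.inr k, rfl⟩, absurd (congrArg _ k) q1,
            absurd (congrArg _ k) q2]
      intro p q e p1 p2 q1 q2
      by_cases m : p ∈ some '' C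
      · exact Or.inl (half p q e p1 p2 q1 q2 m)
      · by_cases k : q ∈ some '' C
        · exact Or.inl (half q p e.symm q1 q2 p1 p2 k).symm
        · exact Or.inr ⟨⟨m, p1, p2⟩, k, q1, q2⟩
    · have : some '' (C ∪ Q) ∩ {o | o ∉ some '' C ∧ o ≠ some u ∧ o ≠ some v} = some '' Q := by
        ext o
        constructor
        · rintro ⟨⟨c, k | k, rfl⟩, m⟩
          exacts [absurd ⟨c, k, rfl⟩ m.1, ⟨c, k, rfl⟩]
        · rintro ⟨c, k, rfl⟩
          refine ⟨⟨c, Or.inr k, rfl⟩, ?_, by simpa using k.2.1, by simpa using k.2.2⟩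
          simpa using fun m => CQ c m k
      rw [this]
      exact cQ.lift
    · have r1 := (Tree.up (S := {c | c ∈ T.P a ∧ u ∈ T.P c}) hu.2 fun c h1 h2 => ⟨h1, h2⟩).symm
      have r2 := Tree.up (S := {c | c ∈ T.P b ∧ v ∈ T.P c}) hv.2 fun c h1 h2 => ⟨h1, h2⟩
      refine (((r1.lift fun p hp => Or.inr ⟨p, Or.inl hp, rfl⟩).tail
        (Or.inr ⟨a, Or.inl ⟨Tree.self a, hu.2⟩, rfl⟩) (Or.inl rfl) (c := none) ha).tail
        (Or.inl rfl) (Or.inr ⟨b, Or.inr ⟨Tree.self b, hv.2⟩, rfl⟩) (c := some b) hb).trans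
        (r2.lift fun p hp => Or.inr ⟨p, Or.inr hp, rfl⟩)
    · rintro o (rfl | ⟨c, hc, rfl⟩) ⟨e, he, k⟩
      · cases k
      · cases k
        rcases hc with hc | hc <;> rcases he with he | ⟨he | he, h1, h2⟩
        exacts [(hd c he).1 hc.1, h1 (Tree.antisymm he hc.2), uv (Tree.trans he hc.2),
          (hd c he).2 hc.1, vu (Tree.trans he hc.2), h2 (Tree.antisymm he hc.2)]
    · exact (((R.single (S := C ∪ {u, v}) (by simp) (Or.inl hpu) eu.symm).trans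
        ((hC pu hpu pv hpv).mono Set.subset_union_left le_rfl)).tail (Or.inl hpv) (by simp)
        ev).lift fun p hp => ⟨p, hp, rfl⟩
    · rintro _ ⟨c, k | rfl | rfl, rfl⟩ m
      exacts [m.1 ⟨c, k, rfl⟩, m.2.1 rfl, m.2.2 rfl]
  have h2 : HT (G ⊔ edge u v) := h1.comap some (Option.some_injective V) (by
    rintro p q (e | e)
    · exact Or.inl e
    · refine Or.inr ?_
      rw [edge_adj] at e ⊢
      simpa using e)
  let W : V → Prop := fun p => p ∈ C ∨ p = u ∨ p = v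
  have hex : {H : SimpleGraph V | HT H ∧ G ⊔ edge u v ≤ H ∧
      ∀ p q, H.Adj p q → G.Adj p q ∨ (W p ∧ W q)}.Nonempty := by
    refine ⟨_, h2, le_rfl, ?_⟩
    rintro p q (e | e)
    · exact Or.inl e
    · rcases ((edge_adj _ _ _ _).1 e).1 with ⟨rfl, rfl⟩ | ⟨rfl, rfl⟩ <;> simp [W]
  obtain ⟨H, ⟨hH, le1, hW⟩, maxH⟩ := (Set.toFinite _).exists_maximal hex
  have le2 : G ≤ H := le_sup_left.trans le1
  have euv : H.Adj u v := le1 (Or.inr ((edge_adj _ _ _ _).2 ⟨Or.inl ⟨rfl, rfl⟩, ne⟩))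
  obtain ⟨w, hw, e1, e2, tri⟩ := facial hH euv _ (K := C) (Q := Q) rfl
    (fun p hp q hq => (hC p hp q hq).mono le_rfl le2)
    (fun p hp q hq => (cQ p hp q hq).mono le_rfl le2) uC vC (fun k => k.2.1 rfl)
    (fun k => k.2.2 rfl) CQ
    (fun p hp q e => (hW p q e).elim (nC p hp q) fun k => k.2.imp_right Or.inr)
    ⟨pu, hpu, le2 eu.symm⟩ ⟨pv, hpv, le2 ev.symm⟩
    (fun p q hp hq n k => by
      refine maxH (y := H ⊔ edge p q) ⟨k, le1.trans le_sup_left, ?_⟩ le_sup_left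
        (Or.inr ((edge_adj _ _ _ _).2 ⟨Or.inl ⟨rfl, rfl⟩, n⟩))
      rintro r s (e | e)
      · exact hW r s e
      · rcases ((edge_adj _ _ _ _).1 e).1 with ⟨rfl, rfl⟩ | ⟨rfl, rfl⟩
        exacts [Or.inr ⟨hp, hq⟩, Or.inr ⟨hq, hp⟩])
  exact ⟨w, u, v, (apex_of_facial hH euv e1 e2 tri).mono (apex_mono le2 _), hw, hN'⟩

theorem two_paths (T : Tree G) {U C : Set V} (u : Fin 3 → V) (h : HT (apex G U))
    (hu : ∀ i, u i ∈ U) (hC : Cn G C) (hd : ∀ c ∈ C, ∀ i, c ∉ T.P (u i))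
    (y : Fin 3 → V) (hy : ∀ i, y i ∈ Nb G C ∧ y i ∈ T.P (u i) ∧ ∀ j, j ≠ i → y i ∉ T.P (u j)) :
    False := by
  let A : Fin 3 → Set V := fun i => {a | a ∈ T.P (u i) ∧ ∀ j, j ≠ i → a ∉ T.P (u j)}
  let Z : Set V := {a | ∃ i j, i ≠ j ∧ a ∈ T.P (u i) ∧ a ∈ T.P (u j)}
  have uA : ∀ i, u i ∈ A i := fun i =>
    ⟨Tree.self _, fun j n k => (hy i).2.2 j n (Tree.trans k (hy i).2.1)⟩
  have cA : ∀ i, Cn G (A i) := fun i => Cn.of_root (u i) fun a ha =>
    Tree.up ha.1 fun c h1 h2 => ⟨h1, fun j n k => ha.2 j n (Tree.trans k h2)⟩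
  have cZ : Cn G Z := Cn.of_root T.root fun a ⟨i, j, n, h1, h2⟩ =>
    (Tree.up (S := Z) (Tree.root_mem a)
      fun c k _ => ⟨i, j, n, Tree.trans h1 k, Tree.trans h2 k⟩).symm
  have dZ : ∀ i a, a ∈ A i → a ∈ Z → False := by
    rintro i a ha ⟨j, k, n, h1, h2⟩
    by_cases e : j = i
    · exact ha.2 k (e ▸ n.symm) h2
    · exact ha.2 j e h1
  have tZ : ∀ i, Tch G (A i) Z := by
    intro i
    by_contra m
    have : T.root ∈ A i := (Tree.up (S := T.P (u i)) (Tree.root_mem _) fun c k _ => k).ind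
      (fun p => p ∈ A i) (uA i) fun p q _ hq e hp =>
        ⟨hq, fun j n k => m ⟨p, hp, q, ⟨j, i, n, k, hq⟩, e⟩⟩
    exact this.2 (i + 1) ((by decide : ∀ i : Fin 3, i + 1 ≠ i) i) (Tree.root_mem _)
  refine h.no_K33 (fun i => some '' A i) ![{none}, some '' C, some '' Z] (fun i => (cA i).lift)
    ?_ ?_ ?_ ?_ ?_
  · intro j
    fin_cases j
    exacts [Cn.of_root none (by rintro _ rfl; exact R.refl), hC.lift, cZ.lift]
  · rintro i j n _ ⟨a, ha, rfl⟩ ⟨b, hb, e⟩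
    cases e
    exact hb.2 i n ha.1
  · have : ∀ c ∈ C, c ∉ Z := fun c hc ⟨i, _, _, k, _⟩ => hd c hc i k
    intro i j n o
    fin_cases i <;> fin_cases j <;> simp at n ⊢ <;> grind
  · rintro i j _ ⟨a, ha, rfl⟩
    fin_cases j
    · simp
    · simpa using fun k => hd a k i ha.1
    · simpa using dZ i a ha
  · intro i j
    fin_cases j
    · exact ⟨_, ⟨u i, uA i, rfl⟩, none, rfl, hu i⟩
    · obtain ⟨⟨_, c, hc, e⟩, k⟩ := hy i
      exact ⟨_, ⟨y i, k, rfl⟩, _, ⟨c, hc, rfl⟩, e.symm⟩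
    · obtain ⟨a, ha, b, hb, e⟩ := tZ i
      exact ⟨_, ⟨a, ha, rfl⟩, _, ⟨b, hb, rfl⟩, e⟩

theorem step_three [Finite V] (T : Tree G) {C : Set V} {a b c : V} (h : HT (apex G {a, b, c}))
    (hC : Cn G C) (hne : C.Nonempty) (hd : ∀ p ∈ C, p ∉ T.P a ∪ T.P b ∪ T.P c)
    (hN : Nb G C ⊆ T.P a ∪ T.P b ∪ T.P c) :
    ∃ w u v, HT (apex G {w, u, v}) ∧ w ∈ C ∧ Nb G C ⊆ T.P u ∪ T.P v := by
  have hU : ∀ p ∈ C, p ∉ ({a, b, c} : Set V) := by
    rintro p hp (rfl | rfl | rfl)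
    exacts [hd p hp (Or.inl (Or.inl (Tree.self p))), hd p hp (Or.inl (Or.inr (Tree.self p))),
      hd p hp (Or.inr (Tree.self p))]
  have hd' : ∀ p ∈ C, p ∉ T.P a ∧ p ∉ T.P b ∧ p ∉ T.P c := fun p hp => by
    simpa [not_or, and_assoc] using hd p hp
  by_cases h1 : Nb G C ⊆ T.P a ∪ T.P b
  · exact step_two T h (by simp) (by simp) hC hne hU
      (fun p hp => ⟨(hd' p hp).1, (hd' p hp).2.1⟩) h1
  by_cases h2 : Nb G C ⊆ T.P a ∪ T.P c
  · exact step_two T h (by simp) (by simp) hC hne hU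
      (fun p hp => ⟨(hd' p hp).1, (hd' p hp).2.2⟩) h2
  by_cases h3 : Nb G C ⊆ T.P b ∪ T.P c
  · exact step_two T h (by simp) (by simp) hC hne hU (fun p hp => (hd' p hp).2) h3
  exfalso
  obtain ⟨z, z1, z2⟩ := Set.not_subset.1 h1
  obtain ⟨y, y1, y2⟩ := Set.not_subset.1 h2
  obtain ⟨x, x1, x2⟩ := Set.not_subset.1 h3
  have z3 := hN z1
  have y3 := hN y1
  have x3 := hN x1
  simp only [Set.mem_union, not_or] at z2 y2 x2 z3 y3 x3
  refine two_paths T ![a, b, c] h ?_ hC ?_ ![x, y, z] ?_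
  · intro i; fin_cases i <;> simp
  · intro p hp i
    have := hd' p hp
    fin_cases i <;> simp [this]
  · intro i
    fin_cases i <;> refine ⟨by assumption, by simp; tauto, fun j n => ?_⟩ <;>
      fin_cases j <;> simp at n ⊢ <;> tauto

/-- Tripod theorem. -/
theorem tripod [Finite V] (h : HT G) (T : Tree G) {p q : V} (e : G.Adj p q) (B : Set (Set V))
    (hB : ∀ X ∈ B, Cn G X ∧ X.Nonempty)
    (ht : ∀ X ∈ B, ∀ Y ∈ B, (X ∩ Y).Nonempty ∨ Tch G X Y) :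
    ∃ a b c, HT (apex G {a, b, c}) ∧ ∀ X ∈ B, (X ∩ (T.P a ∪ T.P b ∪ T.P c)).Nonempty := by
  have main : ∀ n : ℕ, ∀ a b c, HT (apex G {a, b, c}) → ∀ X ∈ B, ∀ x ∈ X,
      (∀ y ∈ X, y ∉ T.P a ∪ T.P b ∪ T.P c) →
      {y | R G (T.P a ∪ T.P b ∪ T.P c)ᶜ x y}.ncard = n →
      ∃ a b c, HT (apex G {a, b, c}) ∧ ∀ X ∈ B, (X ∩ (T.P a ∪ T.P b ∪ T.P c)).Nonempty := by
    intro n
    induction n using Nat.strong_induction_on with
    | _ n ih =>
    intro a b c h X hX x hx off hn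
    set C : Set V := {y | R G (T.P a ∪ T.P b ∪ T.P c)ᶜ x y} with hCdef
    have XC : X ⊆ C := fun y hy => ((hB X hX).1 x hx y hy).mono off le_rfl
    obtain ⟨w, u, v, h', hw, hN⟩ := step_three T (C := C) h
      (Cn.of_root x fun b hb => R.restrict hb fun _ hp _ => hp) ⟨x, R.refl⟩
      (fun p hp => R.mem hp (off x hx))
      (fun p ⟨h1, q, hq, e⟩ => by
        by_contra m
        exact h1 (R.tail hq (R.mem hq (off x hx)) m e))
    by_cases all : ∀ Y ∈ B, (Y ∩ (T.P w ∪ T.P u ∪ T.P v)).Nonempty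
    · exact ⟨w, u, v, h', all⟩
    push Not at all
    obtain ⟨Y, hY, offY⟩ := all
    have offY' : ∀ y ∈ Y, y ∉ T.P w ∪ T.P u ∪ T.P v := fun y hy k =>
      Set.notMem_empty y (offY ▸ ⟨hy, k⟩)
    have stay : ∀ p q, q ∉ T.P w ∪ T.P u ∪ T.P v → G.Adj p q → p ∈ C → q ∈ C := by
      intro p q hq e hp
      by_contra m
      rcases hN ⟨m, p, hp, e⟩ with k | k
      exacts [hq (Or.inl (Or.inr k)), hq (Or.inr k)]
    have yC : ∃ y ∈ Y, y ∈ C := by
      rcases ht X hX Y hY with ⟨y, h1, h2⟩ | ⟨p, hp, y, hy, e⟩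
      exacts [⟨y, h2, XC h1⟩, ⟨y, hy, stay p y (offY' y hy) e (XC hp)⟩]
    obtain ⟨y, hy, yC⟩ := yC
    refine ih _ ?_ w u v h' Y hY y hy offY' rfl
    refine hn ▸ Set.ncard_lt_ncard ⟨fun z hz => ?_, fun k => ?_⟩ (Set.toFinite _)
    · exact R.ind hz (fun p => p ∈ C) yC fun p q _ hq e hp => stay p q hq e hp
    · exact R.mem (k hw) (offY' y hy) (Or.inl (Or.inl (Tree.self w)))
  by_cases all : ∀ Y ∈ B, (Y ∩ (T.P p ∪ T.P q ∪ T.P q)).Nonempty
  · exact ⟨p, q, q, h.apex_edge e, all⟩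
  push Not at all
  obtain ⟨Y, hY, offY⟩ := all
  obtain ⟨y, hy⟩ := (hB Y hY).2
  exact main _ p q q (h.apex_edge e) Y hY y hy
    (fun z hz k => Set.notMem_empty z (offY ▸ ⟨hz, k⟩)) rfl

end Pool.Agent.Shared.Planar
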