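import Mathlib
import Pool.Agent.Shared.Planar.Cocycle

/-!
# The three regions of a theta subgraph of a planar graph
-/

namespace Pool.Agent.Shared.Planar

variable {X : Type*} {H : SimpleGraph X}

theorem HT.comap_on {W : Type*} {K : SimpleGraph W} (h : HT H) (f : W → X) (S : Set W)
    (hf : Set.InjOn f S) (hA : ∀ a b, K.Adj a b → a ∈ S ∧ H.Adj (f a) (f b)) : HT K := by
  classical
  obtain ⟨c⟩ := h
  letI : LinearOrder W := linearOrderOfSTO WellOrderingRel
  have m1 : ∀ {a b}, K.Adj a b → a ∈ S := fun e => (hA _ _ e).1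
  have m2 : ∀ {a b}, K.Adj a b → b ∈ S := fun e => (hA _ _ e.symm).1
  refine ⟨⟨fun a b => if a ∈ S ∧ b ∈ S then c.t (f a) (f b) else if a < b then 1 else 0,
    fun a b v => c.x (f a) (f b) (f v), fun a b h => ?_, fun a b v => c.symm _ _ _,
    fun a b p q h1 h2 e1 e2 e3 e4 => ?_⟩⟩
  · by_cases k : a ∈ S ∧ b ∈ S
    · simp only [k, and_self, if_true]
      exact c.anti _ _ fun e => h (hf k.1 k.2 e)
    · have k' : ¬ (b ∈ S ∧ a ∈ S) := fun e => k e.symm
      simp only [k, k', if_false]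
      rcases lt_or_gt_of_ne h with e | e <;> simp [e, e.not_gt]
  · simp only [m1 h1, m2 h1, m1 h2, m2 h2, and_self, if_true]
    exact c.eqn _ _ _ _ (hA _ _ h1).2 (hA _ _ h2).2 (fun e => e1 (hf (m1 h1) (m1 h2) e))
      (fun e => e2 (hf (m1 h1) (m2 h2) e)) (fun e => e3 (hf (m2 h1) (m1 h2) e))
      (fun e => e4 (hf (m2 h1) (m2 h2) e))

/-- Three internally disjoint induced paths with common ends. -/
structure Theta (H : SimpleGraph X) where
  P : Fin 3 → ℕ → X
  n : Fin 3 → ℕ
  two : ∀ i, 2 ≤ n i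
  top : ∀ i j, P i 0 = P j 0
  bot : ∀ i j, P i (n i) = P j (n j)
  adj : ∀ i k, k < n i → H.Adj (P i k) (P i (k + 1))
  inj : ∀ i j k l, k ≤ n i → l ≤ n j → P i k = P j l →
    (i = j ∧ k = l) ∨ (k = 0 ∧ l = 0) ∨ (k = n i ∧ l = n j)
  ind : ∀ i k l, k + 1 < l → l ≤ n i → ¬ H.Adj (P i k) (P i l)

namespace Theta

variable (T : Theta H)

/-- The vertices of the `i`-th path. -/
def On (i : Fin 3) (v : X) : Prop := ∃ k, k ≤ T.n i ∧ v = T.P i k

variable (c : Coc H)

def f (i : Fin 3) : ℕ → X → ZMod 2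
  | 0 => 0
  | k + 1 => f i k + c.x (T.P i k) (T.P i (k + 1))

theorem seg (i : Fin 3) {k l : ℕ} (hkl : k ≤ l) (hl : l ≤ T.n i) {p q : X} (e : H.Adj p q)
    (hp : ∀ j, k ≤ j → j ≤ l → p ≠ T.P i j) (hq : ∀ j, k ≤ j → j ≤ l → q ≠ T.P i j) :
    T.f c i k p + T.f c i l p + T.f c i k q + T.f c i l q + c.x p q (T.P i k) + c.x p q (T.P i l)
      = c.t (T.P i k) p + c.t (T.P i k) q + c.t (T.P i l) p + c.t (T.P i l) q := by
  induction l, hkl using Nat.le_induction with
  | base => ring_nf; reduce_mod_char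
  | succ l hkl ih =>
    have i1 := ih (by omega) (fun j a b => hp j a (by omega)) (fun j a b => hq j a (by omega))
    have := c.eqn _ _ p q (T.adj i l (by omega)) e (hp l hkl (by omega)).symm
      (hq l hkl (by omega)).symm (hp (l + 1) (by omega) le_rfl).symm
      (hq (l + 1) (by omega) le_rfl).symm
    simp only [f, Pi.add_apply]
    linear_combination (norm := (ring_nf; reduce_mod_char)) i1 + this

/-- Two disjoint segments. -/
theorem seg2 (i j : Fin 3) {k l a b : ℕ} (hkl : k ≤ l) (hl : l ≤ T.n i) (hab : a ≤ b)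
    (hb : b ≤ T.n j) (hd : ∀ s t, k ≤ s → s ≤ l → a ≤ t → t ≤ b → T.P j t ≠ T.P i s) :
    T.f c i k (T.P j a) + T.f c i l (T.P j a) + T.f c i k (T.P j b) + T.f c i l (T.P j b)
      + T.f c j a (T.P i k) + T.f c j b (T.P i k) + T.f c j a (T.P i l) + T.f c j b (T.P i l)
      = c.t (T.P i k) (T.P j a) + c.t (T.P i k) (T.P j b) + c.t (T.P i l) (T.P j a)
        + c.t (T.P i l) (T.P j b) := by
  induction b, hab using Nat.le_induction with
  | base => ring_nf; reduce_mod_char
  | succ b hab ih =>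
    have i1 := ih (by omega) (fun s t h1 h2 h3 h4 => hd s t h1 h2 h3 (by omega))
    have := T.seg c i hkl hl (T.adj j b (by omega)) (fun s h1 h2 => hd s b h1 h2 hab (by omega))
      (fun s h1 h2 => hd s (b + 1) h1 h2 (by omega) le_rfl)
    simp only [f, Pi.add_apply]
    linear_combination (norm := (ring_nf; reduce_mod_char)) i1 + this

/-- The side function of the cycle formed by two of the paths. -/
def sd (i j : Fin 3) (v : X) : ZMod 2 := T.f c i (T.n i) v + T.f c j (T.n j) v

theorem sd_edge (i j : Fin 3) {p q : X} (e : H.Adj p q) (p1 : ¬ T.On i p) (p2 : ¬ T.On j p)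
    (q1 : ¬ T.On i q) (q2 : ¬ T.On j q) : T.sd c i j p = T.sd c i j q := by
  have h1 := T.seg c i (Nat.zero_le _) le_rfl e (fun s _ h k => p1 ⟨s, h, k⟩)
    (fun s _ h k => q1 ⟨s, h, k⟩)
  have h2 := T.seg c j (Nat.zero_le _) le_rfl e (fun s _ h k => p2 ⟨s, h, k⟩)
    (fun s _ h k => q2 ⟨s, h, k⟩)
  rw [T.top j i, T.bot j i] at h2
  simp only [f, Pi.zero_apply] at h1 h2
  simp only [sd]
  linear_combination (norm := (ring_nf; reduce_mod_char)) h1 + h2

theorem off {i j : Fin 3} (h : i ≠ j) {k : ℕ} (h0 : 0 < k) (h1 : k < T.n j) :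
    ¬ T.On i (T.P j k) := by
  rintro ⟨l, hl, e⟩
  rcases T.inj j i k l h1.le hl e with m | m | m
  exacts [h m.1.symm, by omega, by omega]

theorem sd_path {i j s : Fin 3} (h1 : i ≠ s) (h2 : j ≠ s) {k : ℕ} (h0 : 1 ≤ k) (hk : k < T.n s) :
    T.sd c i j (T.P s k) = T.sd c i j (T.P s 1) := by
  induction k, h0 using Nat.le_induction with
  | base => rfl
  | succ k h0 ih =>
    rw [← ih (by omega)]
    exact (T.sd_edge c i j (T.adj s k (by omega)) (T.off h1 (by omega) (by omega))
      (T.off h2 (by omega) (by omega)) (T.off h1 (by omega) hk) (T.off h2 (by omega) hk)).symm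

def psi (i : Fin 3) : ZMod 2 :=
  T.f c i 1 (T.P i (T.n i)) + T.f c i 1 (T.P i 0) + T.f c i (T.n i) (T.P i 0)
    + c.t (T.P i 1) (T.P i (T.n i)) + c.t (T.P i 1) (T.P i 0)

theorem pair {i j : Fin 3} (h : i ≠ j) :
    T.f c i (T.n i) (T.P j 1) + T.f c j (T.n j) (T.P i 1) = T.psi c i + T.psi c j + 1 := by
  have ti := T.two i
  have tj := T.two j
  have h1 := T.seg2 c i j (k := 0) (l := 1) (a := 1) (b := T.n j) (by omega) (by omega) (by omega)
    le_rfl fun s t a1 a2 a3 a4 e => by
      rcases T.inj j i t s a4 (by omega) e with m | m | m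
      exacts [h m.1.symm, by omega, by omega]
  have h2 := T.seg2 c i j (k := 1) (l := T.n i) (a := 0) (b := 1) (by omega) le_rfl (by omega)
    (by omega) fun s t a1 a2 a3 a4 e => by
      rcases T.inj j i t s (by omega) a2 e with m | m | m
      exacts [h m.1.symm, by omega, by omega]
  have ne : ∀ s k l, k ≤ T.n s → l ≤ T.n s → k ≠ l → T.P s k ≠ T.P s l := fun s k l a b m e => by
    rcases T.inj s s k l a b e with m | m | m <;> omega
  have a1 := c.anti _ _ (ne j 0 1 (by omega) (by omega) (by omega))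
  have a2 := c.anti _ _ (ne j (T.n j) 1 le_rfl (by omega) (by omega))
  have a3 := c.anti _ _ (ne j (T.n j) 0 le_rfl (by omega) (by omega))
  simp only [psi]
  rw [T.top i j, T.bot i j] at *
  simp only [show ∀ s, T.f c s 0 = 0 from fun _ => rfl, Pi.zero_apply] at h1 h2
  linear_combination (norm := (ring_nf; reduce_mod_char)) h1 + h2 + a1 + a2 + a3

/-- `ta r v = 1` says that `v` is inside the cycle formed by the paths `r` and `r + 1`. -/
def ta (r : Fin 3) (v : X) : ZMod 2 := T.sd c r (r + 1) v + T.sd c r (r + 1) (T.P (r + 2) 1)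

theorem ta_sum (v : X) : T.ta c 0 v + T.ta c 1 v + T.ta c 2 v = 1 := by
  have h1 := T.pair c (i := 0) (j := 1) (by decide)
  have h2 := T.pair c (i := 1) (j := 2) (by decide)
  have h3 := T.pair c (i := 0) (j := 2) (by decide)
  simp only [ta, sd]
  simp only [show (0 + 1 : Fin 3) = 1 from rfl, show (0 + 2 : Fin 3) = 2 from rfl,
    show (1 + 1 : Fin 3) = 2 from rfl, show (1 + 2 : Fin 3) = 0 from rfl,
    show (2 + 1 : Fin 3) = 0 from rfl, show (2 + 2 : Fin 3) = 1 from rfl]
  linear_combination (norm := (ring_nf; reduce_mod_char)) h1 + h2 + h3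

/-- The closed region between the paths `r` and `r + 1`. -/
def Reg (r : Fin 3) (v : X) : Prop :=
  T.On r v ∨ T.On (r + 1) v ∨
    ((∀ i, ¬ T.On i v) ∧ T.ta c (r + 1) v = 0 ∧ T.ta c (r + 2) v = 0)

theorem ta_edge {p q : X} (e : H.Adj p q) (r : Fin 3) (hp : ∀ i, ¬ T.On i p)
    (q1 : ¬ T.On r q) (q2 : ¬ T.On (r + 1) q) : T.ta c r p = T.ta c r q := by
  simp only [ta, T.sd_edge c r (r + 1) e (hp _) (hp _) q1 q2]

theorem ta_on (r : Fin 3) {q : X} (h : T.On (r + 2) q) (q1 : ¬ T.On r q) : T.ta c r q = 0 := by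
  obtain ⟨k, hk, rfl⟩ := h
  have k0 : k ≠ 0 := by rintro rfl; exact q1 ⟨0, Nat.zero_le _, T.top _ _⟩
  have k1 : k ≠ T.n (r + 2) := by rintro rfl; exact q1 ⟨_, le_rfl, T.bot _ _⟩
  simp only [ta]
  rw [T.sd_path c (by omega) (by omega) (by omega) (by omega)]
  ring_nf; reduce_mod_char

theorem ta_one (r : Fin 3) {v : X} (h1 : T.ta c (r + 1) v = 0) (h2 : T.ta c (r + 2) v = 0) :
    T.ta c r v = 1 := by
  have := T.ta_sum c v
  fin_cases r <;> simp at h1 h2 ⊢ <;> simp [h1, h2] at this <;> exact this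

theorem on_cases (r i : Fin 3) : i = r ∨ i = r + 1 ∨ i = r + 2 := by omega

theorem reg_closed (r : Fin 3) {p q : X} (hp : T.Reg c r p) (p1 : ¬ T.On r p)
    (p2 : ¬ T.On (r + 1) p) (e : H.Adj p q) : T.Reg c r q := by
  obtain ⟨h0, h1, h2⟩ := (hp.resolve_left p1).resolve_left p2
  by_cases q1 : T.On r q
  · exact Or.inl q1
  by_cases q2 : T.On (r + 1) q
  · exact Or.inr (Or.inl q2)
  have q3 : ¬ T.On (r + 2) q := fun m => by
    have := T.ta_edge c e r h0 q1 q2
    rw [T.ta_one c r h1 h2, T.ta_on c r m q1] at this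
    exact absurd this (by decide)
  have hq : ∀ i, ¬ T.On i q := fun i => by
    rcases on_cases r i with rfl | rfl | rfl <;> assumption
  exact Or.inr (Or.inr ⟨hq, T.ta_edge c e _ h0 (hq _) (hq _) ▸ h1,
    T.ta_edge c e _ h0 (hq _) (hq _) ▸ h2⟩)

theorem reg_uniq {r s : Fin 3} {v : X} (h : T.Reg c r v) (k : T.Reg c s v) (hv : ∀ i, ¬ T.On i v) :
    r = s := by
  obtain ⟨_, h1, h2⟩ := (h.resolve_left (hv _)).resolve_left (hv _)
  obtain ⟨_, k1, k2⟩ := (k.resolve_left (hv _)).resolve_left (hv _)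
  have := T.ta_one c r h1 h2
  rcases on_cases s r with e | rfl | rfl
  exacts [e, absurd (this.symm.trans k1) (by decide), absurd (this.symm.trans k2) (by decide)]

/-- A vertex in no region: its component is attached to the two branch vertices only. -/
def Bad (v : X) : Prop := (∀ i, ¬ T.On i v) ∧ ∀ r, T.ta c r v = 1

theorem reg_or_bad (v : X) : (∃ r, T.Reg c r v) ∨ T.Bad c v := by
  by_cases h : ∀ i, ¬ T.On i v
  swap
  · push Not at h
    obtain ⟨i, h⟩ := h
    exact Or.inl ⟨i, Or.inl h⟩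
  have s := T.ta_sum c v
  have key : ∀ a b d : ZMod 2, a + b + d = 1 → (b = 0 ∧ d = 0) ∨ (d = 0 ∧ a = 0) ∨
      (a = 0 ∧ b = 0) ∨ (a = 1 ∧ b = 1 ∧ d = 1) := by decide
  rcases key _ _ _ s with m | m | m | m
  · exact Or.inl ⟨0, Or.inr (Or.inr ⟨h, m⟩)⟩
  · exact Or.inl ⟨1, Or.inr (Or.inr ⟨h, m⟩)⟩
  · exact Or.inl ⟨2, Or.inr (Or.inr ⟨h, m⟩)⟩
  · refine Or.inr ⟨h, fun r => ?_⟩
    fin_cases r
    exacts [m.1, m.2.1, m.2.2]

theorem bad_closed {p q : X} (hp : T.Bad c p) (e : H.Adj p q) (q0 : q ≠ T.P 0 0)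
    (q1 : q ≠ T.P 0 (T.n 0)) : T.Bad c q := by
  have hq : ∀ i, ¬ T.On i q := by
    rintro i ⟨k, hk, rfl⟩
    have k0 : k ≠ 0 := by rintro rfl; exact q0 (T.top _ _)
    have k1 : k ≠ T.n i := by rintro rfl; exact q1 (T.bot _ _)
    have o1 : ¬ T.On (i + 1) (T.P i k) := T.off (by omega) (by omega) (by omega)
    have o2 : ¬ T.On (i + 1 + 1) (T.P i k) := T.off (by omega) (by omega) (by omega)
    have := T.ta_edge c e (i + 1) hp.1 o1 o2
    rw [hp.2, T.ta_on c (i + 1) ⟨k, by rwa [show i + 1 + 2 = i by omega],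
      by rw [show i + 1 + 2 = i by omega]⟩ o1] at this
    exact absurd this (by decide)
  exact ⟨hq, fun r => T.ta_edge c e r hp.1 (hq _) (hq _) ▸ hp.2 r⟩

/-- The region together with a new vertex joined to its boundary cycle. -/
def wheel (r : Fin 3) : SimpleGraph (Option X) where
  Adj
    | some a, some b => T.Reg c r a ∧ T.Reg c r b ∧ H.Adj a b
    | none, some b => T.On r b ∨ T.On (r + 1) b
    | some a, none => T.On r a ∨ T.On (r + 1) a
    | none, none => False
  symm := ⟨by
    rintro (_ | a) (_ | b) h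
    exacts [h, h, h, ⟨h.2.1, h.1, h.2.2.symm⟩]⟩
  loopless := ⟨by rintro (_ | a) h; exacts [h, H.irrefl h.2.2]⟩

theorem star (r i j : Fin 3) (hij : (i = r ∧ j = r + 1) ∨ (i = r + 1 ∧ j = r)) (k : ℕ)
    (hk : k ≤ T.n i) : ∃ g : X → ZMod 2, ∀ a b, T.Reg c r a → T.Reg c r b → H.Adj a b →
      a ≠ T.P i k → b ≠ T.P i k →
      g a + g b + c.x a b (T.P (r + 2) 1) + c.x a b (T.P i k) =
        c.t (T.P (r + 2) 1) a + c.t (T.P (r + 2) 1) b + c.t (T.P i k) a + c.t (T.P i k) b := by
  classical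
  set s := r + 2 with hs
  have ts := T.two s
  have tj := T.two j
  have n1 : i ≠ s := by omega
  have n2 : j ≠ s := by omega
  have n3 : i ≠ j := by omega
  have offs : ∀ v, T.Reg c r v → ∀ l, 0 < l → l < T.n s → v ≠ T.P s l := by
    rintro _ (h | h | h) l l0 l1 rfl
    exacts [T.off (by omega) l0 l1 h, T.off (by omega) l0 l1 h, h.1 s ⟨l, l1.le, rfl⟩]
  let Top : X → Prop := fun v => ∃ l, l < k ∧ v = T.P i l
  let gT : X → ZMod 2 := fun v => T.f c s 1 v + T.f c i k v
  let gL : X → ZMod 2 := fun v => T.f c s 1 v + T.f c s (T.n s) v + T.f c i k v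
    + T.f c i (T.n i) v + T.sd c i s (T.P j 1)
  have same : ∀ v, T.Reg c r v → ¬ T.On i v → gT v = gL v := by
    intro v hv o
    have : T.sd c i s v = T.sd c i s (T.P j 1) := by
      by_cases m : T.On j v
      · obtain ⟨l, hl, rfl⟩ := m
        have k0 : l ≠ 0 := by rintro rfl; exact o ⟨0, Nat.zero_le _, T.top _ _⟩
        have k1 : l ≠ T.n j := by rintro rfl; exact o ⟨_, le_rfl, T.bot _ _⟩
        exact T.sd_path c n3 n2.symm (by omega) (by omega)
      · rcases hij with ⟨rfl, rfl⟩ | ⟨rfl, rfl⟩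
        · have h := ((hv.resolve_left o).resolve_left m).2.2
          simp only [ta, sd, show i + 2 + 1 = i by omega, show i + 2 + 2 = i + 1 by omega] at h
          simp only [sd, hs]
          linear_combination (norm := (ring_nf; reduce_mod_char)) h
        · have h := ((hv.resolve_left m).resolve_left o).2.1
          simp only [ta, sd, show j + 1 + 1 = j + 2 by omega, show j + 1 + 2 = j by omega] at h
          simp only [sd, hs]
          linear_combination (norm := (ring_nf; reduce_mod_char)) h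
    simp only [gT, gL]
    rw [← this]
    simp only [sd]
    ring_nf; reduce_mod_char
  have low : ∀ a b, T.Reg c r a → T.Reg c r b → H.Adj a b → b ≠ T.P i k → Top a →
      gL a + (if Top b then gL b else gT b) + c.x a b (T.P s 1) + c.x a b (T.P i k) =
        c.t (T.P s 1) a + c.t (T.P s 1) b + c.t (T.P i k) a + c.t (T.P i k) b := by
    rintro _ b ha hb e b1 ⟨l, hl, rfl⟩
    have a2 : ∀ m, k ≤ m → m ≤ T.n i → T.P i l ≠ T.P i m := fun m m1 m2 e => by
      rcases T.inj i i l m (by omega) m2 e with h | h | h <;> omega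
    have b2 : ∀ m, k ≤ m → m ≤ T.n i → b ≠ T.P i m := by
      rintro m m1 m2 rfl
      rcases m1.eq_or_lt with rfl | m3
      exacts [b1 rfl, T.ind i l m (by omega) m2 e]
    have o : ∀ v, T.Reg c r v → v ≠ T.P i (T.n i) → ∀ m, 1 ≤ m → m ≤ T.n s → v ≠ T.P s m := by
      intro v hv h m m1 m2
      rcases m2.eq_or_lt with rfl | m3
      exacts [T.bot i s ▸ h, offs v hv m m1 m3]
    have h1 := T.seg c s (k := 1) (by omega) le_rfl e (o _ ha (a2 _ hk le_rfl))
      (o _ hb (b2 _ hk le_rfl))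
    have h2 := T.seg c i hk le_rfl e a2 b2
    rw [T.bot s i] at h1
    have : (if Top b then gL b else gT b) = gL b := by
      split_ifs with m
      · rfl
      · refine same b hb ?_
        rintro ⟨q, hq, rfl⟩
        rcases lt_or_ge q k with m1 | m1
        exacts [m ⟨q, m1, rfl⟩, b2 q m1 hq rfl]
    rw [this]
    simp only [gL]
    linear_combination (norm := (ring_nf; reduce_mod_char)) h1 + h2
  refine ⟨fun v => if Top v then gL v else gT v, fun a b ha hb e a1 b1 => ?_⟩
  by_cases ma : Top a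
  · simp only [ma, if_true]
    exact low a b ha hb e b1 ma
  by_cases mb : Top b
  · have := low b a hb ha e.symm a1 mb
    simp only [mb, if_true]
    rw [c.symm a b, c.symm a b]
    linear_combination this
  simp only [ma, mb, if_false]
  have o : ∀ v, ¬ Top v → v ≠ T.P i k → ∀ m, 0 ≤ m → m ≤ k → v ≠ T.P i m := by
    rintro _ h1 h2 m _ m2 rfl
    rcases m2.eq_or_lt with rfl | m3
    exacts [h2 rfl, h1 ⟨m, m3, rfl⟩]
  have o' : ∀ v, T.Reg c r v → v ≠ T.P i 0 → ∀ m, 0 ≤ m → m ≤ 1 → v ≠ T.P s m := by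
    intro v hv h m _ m2
    rcases Nat.eq_zero_or_pos m with rfl | m3
    exacts [T.top i s ▸ h, offs v hv m m3 (by omega)]
  have h1 := T.seg c s (k := 0) (l := 1) (by omega) (by omega) e
    (o' a ha (o a ma a1 0 le_rfl (Nat.zero_le _))) (o' b hb (o b mb b1 0 le_rfl (Nat.zero_le _)))
  have h2 := T.seg c i (Nat.zero_le k) hk e (o a ma a1) (o b mb b1)
  rw [T.top s i] at h1
  simp only [show ∀ s, T.f c s 0 = 0 from fun _ => rfl, Pi.zero_apply] at h1 h2
  simp only [gT]
  linear_combination (norm := (ring_nf; reduce_mod_char)) h1 + h2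

theorem ht_wheel (r : Fin 3) : HT (T.wheel c r) := by
  classical
  have ex : ∀ h : X, ∃ g : X → ZMod 2, (T.On r h ∨ T.On (r + 1) h) → ∀ a b, T.Reg c r a →
      T.Reg c r b → H.Adj a b → a ≠ h → b ≠ h →
      g a + g b + c.x a b (T.P (r + 2) 1) + c.x a b h =
        c.t (T.P (r + 2) 1) a + c.t (T.P (r + 2) 1) b + c.t h a + c.t h b := by
    intro h
    by_cases m : T.On r h ∨ T.On (r + 1) h
    · rcases m with ⟨k, hk, rfl⟩ | ⟨k, hk, rfl⟩
      · obtain ⟨g, hg⟩ := T.star c r r (r + 1) (Or.inl ⟨rfl, rfl⟩) k hk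
        exact ⟨g, fun _ => hg⟩
      · obtain ⟨g, hg⟩ := T.star c r (r + 1) r (Or.inr ⟨rfl, rfl⟩) k hk
        exact ⟨g, fun _ => hg⟩
    · exact ⟨0, fun k => absurd k m⟩
  choose g hg using ex
  set w := T.P (r + 2) 1 with hw
  have wr : ∀ v, T.Reg c r v → v ≠ w := by
    have := T.two (r + 2)
    rintro _ (h | h | h) rfl
    exacts [T.off (by omega) (by omega) (by omega) h, T.off (by omega) (by omega) (by omega) h,
      h.1 _ ⟨1, by omega, rfl⟩]
  let t : Option X → Option X → ZMod 2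
    | some a, some b => c.t a b
    | some a, none => if a = w then 0 else c.t a w
    | none, some b => if b = w then 1 else c.t w b
    | none, none => 0
  let x : Option X → Option X → Option X → ZMod 2
    | some a, some b, some d => c.x a b d
    | some a, some b, none => c.x a b w
    | some a, none, some d => g a d
    | none, some a, some d => g a d
    | _, _, _ => 0
  have anti : ∀ a b, a ≠ b → t a b + t b a = 1 := by
    rintro (_ | a) (_ | b) h
    · exact absurd rfl h
    · by_cases m : b = w <;> simp only [t, m, if_true, if_false]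
      · ring
      · exact c.anti _ _ (Ne.symm m)
    · by_cases m : a = w <;> simp only [t, m, if_true, if_false]
      · ring
      · exact c.anti _ _ m
    · exact c.anti _ _ fun e => h (congrArg _ e)
  refine ⟨⟨t, x, anti, ?_, ?_⟩⟩
  · rintro (_ | a) (_ | b) (_ | d) <;> first | rfl | exact c.symm _ _ _
  · rintro (_ | a) (_ | b) (_ | p) (_ | q) h1 h2 e1 e2 e3 e4 <;>
      first | exact absurd h1 id | exact absurd h2 id | exact absurd rfl e1 | exact absurd rfl e2
            | exact absurd rfl e3 | exact absurd rfl e4 | skip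
    · have m := hg b h1 p q h2.1 h2.2.1 h2.2.2 (fun e => e3 (congrArg _ e.symm))
        (fun e => e4 (congrArg _ e.symm))
      simp only [t, x, wr p h2.1, wr q h2.2.1, if_false]
      linear_combination m
    · have m := hg a h1 p q h2.1 h2.2.1 h2.2.2 (fun e => e1 (congrArg _ e.symm))
        (fun e => e2 (congrArg _ e.symm))
      simp only [t, x, wr p h2.1, wr q h2.2.1, if_false]
      linear_combination m
    · have m := hg q h2 a b h1.1 h1.2.1 h1.2.2 (fun e => e2 (congrArg _ e))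
        (fun e => e4 (congrArg _ e))
      have a1 := c.anti _ _ (wr a h1.1)
      have a2 := c.anti _ _ (wr b h1.2.1)
      have a3 := c.anti a q fun e => e2 (congrArg _ e)
      have a4 := c.anti b q fun e => e4 (congrArg _ e)
      simp only [t, x, wr a h1.1, wr b h1.2.1, if_false]
      linear_combination (norm := (ring_nf; reduce_mod_char)) m + a1 + a2 + a3 + a4
    · have m := hg p h2 a b h1.1 h1.2.1 h1.2.2 (fun e => e1 (congrArg _ e))
        (fun e => e3 (congrArg _ e))
      have a1 := c.anti _ _ (wr a h1.1)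
      have a2 := c.anti _ _ (wr b h1.2.1)
      have a3 := c.anti a p fun e => e1 (congrArg _ e)
      have a4 := c.anti b p fun e => e3 (congrArg _ e)
      simp only [t, x, wr a h1.1, wr b h1.2.1, if_false]
      linear_combination (norm := (ring_nf; reduce_mod_char)) m + a1 + a2 + a3 + a4
    · exact c.eqn a b p q h1.2.2 h2.2.2 (fun e => e1 (congrArg _ e)) (fun e => e2 (congrArg _ e))
        (fun e => e3 (congrArg _ e)) (fun e => e4 (congrArg _ e))

end Theta

end Pool.Agent.Shared.Planar
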